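import Mathlib

/-!
# MP_e31007_co: Randić index plus independence number

`R(G) + α(G)` over connected graphs with `n` vertices: the exact maximum is
`max_{1 ≤ a ≤ n-1} (a + √(a (n - a)))`, attained by complete bipartite graphs, and the
inequality `R(G) + α(G) ≤ n - 1 + √(n - 1)` holds for all connected graphs on `n` vertices
exactly when `n ≤ 10`.
-/

open Finset SimpleGraph

namespace Pool.Agent.J4H93.RandicSharp

open Classical in
/-- The Randić index `R(G) = ∑_{uv ∈ E(G)} 1 / √(d_u d_v)`. -/
noncomputable def randic {n : ℕ} (G : SimpleGraph (Fin n)) : ℝ :=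
  ∑ e ∈ G.edgeFinset,
    Sym2.lift ⟨fun u v => 1 / √((G.degree u : ℝ) * (G.degree v : ℝ)),
      fun u v => by simp only [mul_comm]⟩ e

/-- The sum of the Randić index and the independence number. -/
noncomputable def total {n : ℕ} (G : SimpleGraph (Fin n)) : ℝ :=
  randic G + (G.indepNum : ℝ)

open Classical in
lemma two_randic {n : ℕ} (G : SimpleGraph (Fin n)) :
    2 * randic G = ∑ u, ∑ v ∈ G.neighborFinset u,
      1 / √((G.degree u : ℝ) * (G.degree v : ℝ)) := by
  set f : Sym2 (Fin n) → ℝ :=
    Sym2.lift ⟨fun u v => 1 / √((G.degree u : ℝ) * (G.degree v : ℝ)),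
      fun u v => by simp only [mul_comm]⟩ with hf
  have h1 : ∑ d : G.Dart, f d.edge = 2 * randic G := by
    have hmap : ∀ d ∈ (Finset.univ : Finset G.Dart), d.edge ∈ G.edgeFinset := by
      intro d _
      simp
    rw [← Finset.sum_fiberwise_of_maps_to hmap (fun d => f d.edge)]
    unfold randic
    rw [Finset.mul_sum]
    apply Finset.sum_congr rfl
    intro e he
    have hc : (Finset.univ.filter fun d : G.Dart => d.edge = e).card = 2 :=
      G.dart_edge_fiber_card e (by simpa using he)
    have : ∀ d ∈ Finset.univ.filter (fun d : G.Dart => d.edge = e), f d.edge = f e := by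
      intro d hd
      rw [(Finset.mem_filter.mp hd).2]
    rw [Finset.sum_congr rfl this, Finset.sum_const, hc]
    simp [hf]
  rw [← h1]
  have h2 : ∑ d : G.Dart, f d.edge
      = ∑ p ∈ Finset.univ.sigma (fun u => G.neighborFinset u),
          1 / √((G.degree p.1 : ℝ) * (G.degree p.2 : ℝ)) := by
    refine Finset.sum_bij' (fun (d : G.Dart) _ => (⟨d.fst, d.snd⟩ : Σ _ : Fin n, Fin n))
      (fun p hp => ⟨(p.1, p.2), by
        have := (Finset.mem_sigma.mp hp).2
        simpa using this⟩) ?_ ?_ ?_ ?_ ?_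
    · intro d _
      simp
    · intro p hp
      simp
    · intro d _
      rfl
    · intro p _
      rfl
    · intro d _
      rfl
  rw [h2, Finset.sum_sigma]

/-- The key weighting lemma. -/
lemma two_randic_le {n : ℕ} (G : SimpleGraph (Fin n)) (s : Fin n → ℝ) (hs : ∀ u, 0 < s u)
    (hadj : ∀ u v, G.Adj u v → 1 ≤ s u * s v) : 2 * randic G ≤ ∑ u, s u := by
  classical
  rw [two_randic]
  have key : ∀ u, ∀ v ∈ G.neighborFinset u,
      1 / √((G.degree u : ℝ) * (G.degree v : ℝ))
        ≤ (1/2) * (s u / G.degree u + s v / G.degree v) := by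
    intro u v hv
    have huv : G.Adj u v := by simpa using hv
    have hu : (0:ℝ) < G.degree u := by
      exact_mod_cast (G.degree_pos_iff_exists_adj u).mpr ⟨v, huv⟩
    have hv' : (0:ℝ) < G.degree v := by
      exact_mod_cast (G.degree_pos_iff_exists_adj v).mpr ⟨u, huv.symm⟩
    set a : ℝ := (G.degree u : ℝ)
    set b : ℝ := (G.degree v : ℝ)
    have hab : 0 < a * b := mul_pos hu hv'
    have h1 := hadj u v huv
    have hsu := hs u
    have hsv := hs v
    have hx : 0 < s u / a := div_pos hsu hu
    have hy : 0 < s v / b := div_pos hsv hv'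
    have h3 : 1 / √(a * b) ≤ √((s u / a) * (s v / b)) := by
      rw [show (s u / a) * (s v / b) = (s u * s v) / (a * b) by field_simp]
      rw [Real.sqrt_div (by positivity)]
      apply div_le_div_of_nonneg_right _ (Real.sqrt_nonneg _)
      rw [show (1:ℝ) = √1 by simp]
      exact Real.sqrt_le_sqrt (by simpa using h1)
    have h4 : √((s u / a) * (s v / b)) ≤ (1/2) * (s u / a + s v / b) := by
      rw [Real.sqrt_le_left (by positivity)]
      nlinarith [sq_nonneg (s u / a - s v / b)]
    exact h3.trans h4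
  have hle : ∑ u, ∑ v ∈ G.neighborFinset u, 1 / √((G.degree u : ℝ) * (G.degree v : ℝ))
      ≤ ∑ u, ∑ v ∈ G.neighborFinset u, (1/2) * (s u / G.degree u + s v / G.degree v) :=
    Finset.sum_le_sum fun u _ => Finset.sum_le_sum fun v hv => key u v hv
  refine hle.trans ?_
  have hsplit : ∑ u, ∑ v ∈ G.neighborFinset u, (1/2) * (s u / G.degree u + s v / G.degree v)
      = (1/2) * (∑ u, ∑ v ∈ G.neighborFinset u, s u / G.degree u)
        + (1/2) * (∑ u, ∑ v ∈ G.neighborFinset u, s v / G.degree v) := by
    simp_rw [Finset.mul_sum, mul_add, Finset.sum_add_distrib]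
  have hsw : ∑ u, ∑ v ∈ G.neighborFinset u, s v / G.degree v
      = ∑ u, ∑ v ∈ G.neighborFinset u, s u / G.degree u := by
    apply Finset.sum_comm'
    intro u v
    simp [G.adj_comm]
  rw [hsplit, hsw]
  have hrow : ∀ u, ∑ v ∈ G.neighborFinset u, s u / (G.degree u : ℝ) ≤ s u := by
    intro u
    rw [Finset.sum_const, G.card_neighborFinset_eq_degree, nsmul_eq_mul]
    by_cases h0 : G.degree u = 0
    · rw [h0]
      simpa using (hs u).le
    · have : (G.degree u : ℝ) ≠ 0 := by exact_mod_cast h0
      rw [mul_div_cancel₀ _ this]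
  have := Finset.sum_le_sum fun u (_ : u ∈ Finset.univ) => hrow u
  linarith

lemma randic_le_half {n : ℕ} (G : SimpleGraph (Fin n)) : randic G ≤ n / 2 := by
  have := two_randic_le G (fun _ => 1) (fun _ => one_pos) (fun _ _ _ => by norm_num)
  simp at this
  linarith

open Classical in
lemma randic_le_sqrt {n : ℕ} (G : SimpleGraph (Fin n)) (I : Finset (Fin n))
    (hI : G.IsIndepSet I) (h1 : n ≤ 2 * I.card) (h2 : I.card < n) :
    randic G ≤ √((I.card : ℝ) * (n - I.card)) := by
  have ha : (0:ℝ) < I.card := by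
    have : 0 < I.card := by omega
    exact_mod_cast this
  have hc : (0:ℝ) < (n:ℝ) - I.card := by
    have : (I.card : ℝ) < n := by exact_mod_cast h2
    linarith
  have hle : (n:ℝ) - I.card ≤ I.card := by
    have : (n:ℝ) ≤ 2 * I.card := by exact_mod_cast h1
    linarith
  set a : ℝ := (I.card : ℝ)
  set c : ℝ := (n:ℝ) - I.card
  set t : ℝ := √(c / a)
  have ht : 0 < t := Real.sqrt_pos.mpr (div_pos hc ha)
  have ht1 : t ≤ 1 := by
    rw [show (1:ℝ) = √1 by simp]
    apply Real.sqrt_le_sqrt
    rw [div_le_one ha]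
    exact hle
  have hs : ∀ u, 0 < (if u ∈ I then t else t⁻¹) := by
    intro u
    split_ifs
    · exact ht
    · exact inv_pos.mpr ht
  have hadj : ∀ u v, G.Adj u v →
      1 ≤ (if u ∈ I then t else t⁻¹) * (if v ∈ I then t else t⁻¹) := by
    intro u v huv
    by_cases hu : u ∈ I <;> by_cases hv : v ∈ I
    · exfalso
      exact hI (by simpa using hu) (by simpa using hv) huv.ne huv
    · simp [hu, hv, ht.ne']
    · simp [hu, hv, ht.ne']
    · simp only [hu, hv, if_false]
      have : 1 ≤ t⁻¹ := (one_le_inv₀ ht).mpr ht1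
      nlinarith
  have h := two_randic_le G _ hs hadj
  have hsum : ∑ u, (if u ∈ I then t else t⁻¹) = a * t + c * t⁻¹ := by
    rw [Finset.sum_ite]
    simp only [Finset.sum_const, nsmul_eq_mul]
    have e1 : (Finset.univ.filter fun u => u ∈ I) = I := by
      ext u; simp
    have e2 : ((Finset.univ.filter fun u => u ∉ I).card : ℝ) = c := by
      have : (Finset.univ.filter fun u => u ∉ I) = Iᶜ := by
        ext u; simp
      rw [this, Finset.card_compl, Fintype.card_fin, Nat.cast_sub h2.le]
    rw [e1, e2]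
  rw [hsum] at h
  have htt : t * t = c / a := Real.mul_self_sqrt (by positivity)
  have hat : a * t = √(a * c) := by
    symm
    rw [Real.sqrt_eq_iff_mul_self_eq (by positivity) (by positivity)]
    have e : a * t * (a * t) = a * a * (t * t) := by ring
    rw [e, htt]
    field_simp
  have hct : c * t⁻¹ = √(a * c) := by
    have : c * t⁻¹ * t = a * t * t := by
      rw [inv_mul_cancel_right₀ ht.ne', mul_assoc, htt]
      field_simp
    rw [← hat]
    exact mul_right_cancel₀ ht.ne' this
  rw [hat, hct] at h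
  linarith

/-- The complete bipartite graph on `Fin n` with parts `{u < a}` and `{u ≥ a}`. -/
def bip (n a : ℕ) : SimpleGraph (Fin n) where
  Adj u v := (u.val < a ∧ ¬ v.val < a) ∨ (¬ u.val < a ∧ v.val < a)
  symm := ⟨fun u v h => by tauto⟩
  loopless := ⟨fun u h => by tauto⟩

lemma bip_adj {n a : ℕ} (u v : Fin n) : (bip n a).Adj u v ↔
    (u.val < a ∧ ¬ v.val < a) ∨ (¬ u.val < a ∧ v.val < a) := Iff.rfl

lemma card_lt {n a : ℕ} (ha : a ≤ n) :
    (Finset.univ.filter fun u : Fin n => u.val < a).card = a := by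
  have : (Finset.univ.filter fun u : Fin n => u.val < a)
      = (Finset.range a).attachFin (fun m hm => by
          have := Finset.mem_range.mp hm; omega) := by
    ext u
    simp
  rw [this, Finset.card_attachFin, Finset.card_range]

lemma card_ge {n a : ℕ} (ha : a ≤ n) :
    (Finset.univ.filter fun u : Fin n => ¬ u.val < a).card = n - a := by
  have h := Finset.card_filter_add_card_filter_not (s := (Finset.univ : Finset (Fin n)))
    (fun u : Fin n => u.val < a)
  rw [card_lt ha, Finset.card_univ, Fintype.card_fin] at h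
  omega

open Classical in
lemma bip_degree_lt {n a : ℕ} (ha : a ≤ n) (u : Fin n) (hu : u.val < a) :
    (bip n a).degree u = n - a := by
  rw [← card_ge ha, ← SimpleGraph.card_neighborFinset_eq_degree]
  congr 1
  ext v
  rw [SimpleGraph.mem_neighborFinset, bip_adj]
  simp [hu]

open Classical in
lemma bip_degree_ge {n a : ℕ} (ha : a ≤ n) (u : Fin n) (hu : ¬ u.val < a) :
    (bip n a).degree u = a := by
  conv_rhs => rw [← card_lt ha]
  rw [← SimpleGraph.card_neighborFinset_eq_degree]
  congr 1
  ext v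
  rw [SimpleGraph.mem_neighborFinset, bip_adj]
  simp [hu]

lemma bip_connected {n a : ℕ} (h1 : 1 ≤ a) (h2 : a < n) : (bip n a).Connected := by
  have hx : ∀ u : Fin n, (bip n a).Reachable u ⟨0, by omega⟩ := by
    intro u
    by_cases hu : u.val < a
    · have e1 : (bip n a).Adj u ⟨a, h2⟩ := Or.inl ⟨hu, by simp⟩
      have e2 : (bip n a).Adj ⟨a, h2⟩ ⟨0, by omega⟩ := Or.inr ⟨by simp, Nat.lt_of_succ_le h1⟩
      exact e1.reachable.trans e2.reachable
    · have e1 : (bip n a).Adj u ⟨0, by omega⟩ := Or.inr ⟨hu, Nat.lt_of_succ_le h1⟩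
      exact e1.reachable
  have : Nonempty (Fin n) := ⟨⟨0, by omega⟩⟩
  exact ⟨fun u v => (hx u).trans (hx v).symm⟩

lemma bip_randic {n a : ℕ} (h1 : 1 ≤ a) (h2 : a < n) :
    randic (bip n a) = √((a : ℝ) * (n - a)) := by
  classical
  have ha : (0:ℝ) < a := by exact_mod_cast h1
  have hb : (0:ℝ) < (n:ℝ) - a := by
    have : (a:ℝ) < n := by exact_mod_cast h2
    linarith
  have hcast : ((n - a : ℕ) : ℝ) = (n:ℝ) - a := Nat.cast_sub h2.le
  have hterm : ∀ u, ∑ v ∈ (bip n a).neighborFinset u,
      1 / √(((bip n a).degree u : ℝ) * ((bip n a).degree v : ℝ))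
      = if u.val < a then ((n:ℝ) - a) / √((a:ℝ) * (n - a)) else (a:ℝ) / √((a:ℝ) * (n - a)) := by
    intro u
    by_cases hu : u.val < a
    · have : ∀ v ∈ (bip n a).neighborFinset u,
          1 / √(((bip n a).degree u : ℝ) * ((bip n a).degree v : ℝ))
            = 1 / √((a:ℝ) * (n - a)) := by
        intro v hv
        have hv' : ¬ v.val < a := by
          have : (bip n a).Adj u v := by simpa using hv
          rcases this with h | h
          · exact h.2
          · exact absurd hu h.1
        rw [bip_degree_lt h2.le u hu, bip_degree_ge h2.le v hv', hcast, mul_comm]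
      rw [Finset.sum_congr rfl this, Finset.sum_const, nsmul_eq_mul,
        SimpleGraph.card_neighborFinset_eq_degree, bip_degree_lt h2.le u hu, hcast, if_pos hu]
      ring
    · have : ∀ v ∈ (bip n a).neighborFinset u,
          1 / √(((bip n a).degree u : ℝ) * ((bip n a).degree v : ℝ))
            = 1 / √((a:ℝ) * (n - a)) := by
        intro v hv
        have hv' : v.val < a := by
          have : (bip n a).Adj u v := by simpa using hv
          rcases this with h | h
          · exact absurd h.1 hu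
          · exact h.2
        rw [bip_degree_ge h2.le u hu, bip_degree_lt h2.le v hv', hcast]
      rw [Finset.sum_congr rfl this, Finset.sum_const, nsmul_eq_mul,
        SimpleGraph.card_neighborFinset_eq_degree, bip_degree_ge h2.le u hu, if_neg hu]
      ring
  have h := two_randic (bip n a)
  rw [Finset.sum_congr rfl (fun u _ => hterm u), Finset.sum_ite] at h
  simp only [Finset.sum_const, nsmul_eq_mul] at h
  rw [card_lt h2.le, card_ge h2.le, hcast] at h
  have hs : √((a:ℝ) * (n - a)) ≠ 0 := (Real.sqrt_pos.mpr (mul_pos ha hb)).ne'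
  have hq : √((a:ℝ) * (n - a)) * √((a:ℝ) * (n - a)) = a * (n - a) :=
    Real.mul_self_sqrt (mul_pos ha hb).le
  have : 2 * randic (bip n a) = 2 * √((a:ℝ) * (n - a)) := by
    rw [h]
    field_simp
    nlinarith [hq]
  linarith

lemma bip_indep {n a : ℕ} (h2 : a ≤ n) : a ≤ (bip n a).indepNum := by
  classical
  have hI : (bip n a).IsIndepSet
      ((Finset.univ.filter fun u : Fin n => u.val < a : Finset (Fin n)) : Set (Fin n)) := by
    intro u hu v hv _ huv
    simp only [Finset.coe_filter, Finset.mem_univ, true_and, Set.mem_ofPred_eq] at hu hv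
    rcases huv with h | h
    · exact h.2 hv
    · exact h.1 hu
  have := hI.card_le_indepNum
  rwa [card_lt h2] at this

/-- Upper bound: some complete bipartite value dominates. -/
lemma total_le {n : ℕ} (hn : 2 ≤ n) (G : SimpleGraph (Fin n)) (hG : G.Connected) :
    ∃ a : ℕ, 1 ≤ a ∧ a < n ∧ total G ≤ a + √((a:ℝ) * (n - a)) := by
  classical
  obtain ⟨I, hI⟩ := G.exists_isNIndepSet_indepNum
  have hcard : I.card = G.indepNum := hI.card_eq
  have hlt : I.card < n := by
    by_contra hge
    have hle : I.card ≤ n := by simpa using Finset.card_le_univ I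
    have huniv : I = Finset.univ := by
      rw [← Finset.card_eq_iff_eq_univ, Fintype.card_fin]
      omega
    have hne : (⟨0, by omega⟩ : Fin n) ≠ ⟨1, by omega⟩ := by simp
    have : Nontrivial (Fin n) := ⟨⟨_, _, hne⟩⟩
    obtain ⟨v, hv⟩ := hG.preconnected.exists_adj_of_nontrivial (⟨0, by omega⟩ : Fin n)
    exact hI.isIndepSet (by simp [huniv]) (by simp [huniv]) hv.ne hv
  by_cases hbig : n ≤ 2 * I.card
  · refine ⟨I.card, by omega, hlt, ?_⟩
    have := randic_le_sqrt G I hI.isIndepSet hbig hlt
    unfold total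
    rw [← hcard]
    linarith
  · push Not at hbig
    have hR := randic_le_half G
    have hn0 : (2:ℝ) ≤ n := by exact_mod_cast hn
    have hI2 : (2:ℝ) * I.card ≤ n - 1 := by
      have : 2 * I.card + 1 ≤ n := by omega
      have : (2:ℝ) * I.card + 1 ≤ n := by exact_mod_cast this
      linarith
    refine ⟨(n + 1) / 2, by omega, by omega, ?_⟩
    set a : ℕ := (n + 1) / 2
    have ha1 : (n:ℝ) ≤ 2 * a := by
      have : n ≤ 2 * a := by omega
      exact_mod_cast this
    have ha2 : (2:ℝ) * a ≤ n + 1 := by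
      have : 2 * a ≤ n + 1 := by omega
      exact_mod_cast this
    have hsq : (n:ℝ) / 2 - 1 / 2 ≤ √((a:ℝ) * (n - a)) := by
      apply Real.le_sqrt_of_sq_le
      nlinarith
    unfold total
    rw [← hcard]
    linarith

/-- **Main result.** (1) and (2): the maximum of `R(G) + α(G)` over connected graphs on
`n ≥ 2` vertices is `max_{1 ≤ a < n} (a + √(a (n - a)))`; (3): the conjectured inequality
holds for all connected graphs on `n ≥ 3` vertices exactly when `n ≤ 10`. -/
theorem result :
    (∀ n : ℕ, 2 ≤ n → ∀ G : SimpleGraph (Fin n), G.Connected →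
      ∃ a : ℕ, 1 ≤ a ∧ a < n ∧ total G ≤ a + √((a:ℝ) * (n - a))) ∧
    (∀ n a : ℕ, 1 ≤ a → a < n → ∃ G : SimpleGraph (Fin n), G.Connected ∧
      (a:ℝ) + √((a:ℝ) * (n - a)) ≤ total G) ∧
    (∀ n : ℕ, 3 ≤ n →
      ((∀ G : SimpleGraph (Fin n), G.Connected → total G ≤ (n:ℝ) - 1 + √((n:ℝ) - 1))
        ↔ n ≤ 10)) := by
  have hB : ∀ n a : ℕ, 1 ≤ a → a < n → ∃ G : SimpleGraph (Fin n), G.Connected ∧
      (a:ℝ) + √((a:ℝ) * (n - a)) ≤ total G := by
    intro n a h1 h2
    refine ⟨bip n a, bip_connected h1 h2, ?_⟩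
    unfold total
    rw [bip_randic h1 h2]
    have : (a:ℝ) ≤ ((bip n a).indepNum : ℝ) := by exact_mod_cast bip_indep h2.le
    linarith
  refine ⟨fun n hn G hG => total_le hn G hG, hB, ?_⟩
  intro n hn
  constructor
  · intro h
    by_contra hgt
    push Not at hgt
    obtain ⟨G, hG, hle⟩ := hB n (n - 2) (by omega) (by omega)
    have hup := h G hG
    have hn' : (11:ℝ) ≤ n := by exact_mod_cast hgt
    have hc : ((n - 2 : ℕ) : ℝ) = (n:ℝ) - 2 := by
      rw [Nat.cast_sub (by omega)]
      norm_num
    rw [hc] at hle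
    have e : ((n:ℝ) - 2) * ((n:ℝ) - ((n:ℝ) - 2)) = 2 * ((n:ℝ) - 2) := by ring
    rw [e] at hle
    set x : ℝ := √((n:ℝ) - 1) with hx
    set y : ℝ := √(2 * ((n:ℝ) - 2)) with hy
    have hx2 : x * x = (n:ℝ) - 1 := Real.mul_self_sqrt (by linarith)
    have hy2 : y * y = 2 * ((n:ℝ) - 2) := Real.mul_self_sqrt (by linarith)
    have hx0 : 0 ≤ x := Real.sqrt_nonneg _
    have hy0 : 0 ≤ y := Real.sqrt_nonneg _
    have hxy : y ≤ 1 + x := by linarith
    have h3 : y * y ≤ (1 + x) * (1 + x) := by nlinarith
    -- 2(n-2) ≤ 1 + 2x + (n-1), so n - 4 ≤ 2x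
    have h4 : (n:ℝ) - 4 ≤ 2 * x := by nlinarith
    have h5 : ((n:ℝ) - 4) * ((n:ℝ) - 4) ≤ 4 * ((n:ℝ) - 1) := by nlinarith
    nlinarith
  · intro h10 G hG
    obtain ⟨a, h1, h2, hle⟩ := total_le (by omega) G hG
    refine hle.trans ?_
    have hn3 : (3:ℝ) ≤ n := by exact_mod_cast hn
    have hn10 : (n:ℝ) ≤ 10 := by exact_mod_cast h10
    have ha1 : (1:ℝ) ≤ a := by exact_mod_cast h1
    have ha2 : (a:ℝ) + 1 ≤ n := by exact_mod_cast h2
    set x : ℝ := √((n:ℝ) - 1) with hx
    have hx2 : x * x = (n:ℝ) - 1 := Real.mul_self_sqrt (by linarith)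
    have hx0 : 0 ≤ x := Real.sqrt_nonneg _
    suffices hs : √((a:ℝ) * (n - a)) ≤ ((n:ℝ) - a - 1) + x by linarith
    rw [Real.sqrt_le_left (by linarith)]
    rcases Nat.lt_or_ge (a + 1) n with hlt | hge
    · -- b = n - a ≥ 2
      have hb2 : (a:ℝ) + 2 ≤ n := by exact_mod_cast hlt
      have hkey : (a:ℝ) - ((n:ℝ) - a) ≤ 2 * x := by
        have : (n:ℝ) - 4 ≤ 2 * x := by
          by_contra hcon
          push Not at hcon
          nlinarith
        linarith
      nlinarith
    · have : (a:ℝ) + 1 = n := by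
        have : a + 1 = n := by omega
        exact_mod_cast this
      have ha : (a:ℝ) = n - 1 := by linarith
      rw [ha]
      nlinarith

end Pool.Agent.J4H93.RandicSharp
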