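import Mathlib

set_option autoImplicit false

open Topology Filter Set MeasureTheory

namespace Pool.Agent.J4H93.Yam

/-! Metric part: the set of non-isolated points, the height and the modified distance. -/

section Dist

variable {X : Type*} [MetricSpace X]

/-- The set of non-isolated points. -/
def K (X : Type*) [TopologicalSpace X] : Set X := {x : X | ¬ IsOpen ({x} : Set X)}

open Classical in
/-- Distance to the set of non-isolated points (or one, if there are none). -/
noncomputable def ht (x : X) : ℝ := if (K X).Nonempty then Metric.infDist x (K X) else 1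

lemma ht_nonneg (x : X) : 0 ≤ ht x := by
  unfold ht
  split_ifs
  · exact Metric.infDist_nonneg
  · exact zero_le_one

lemma ht_le (x y : X) : ht x ≤ ht y + dist x y := by
  unfold ht
  split_ifs
  · exact Metric.infDist_le_infDist_add_dist
  · linarith [dist_nonneg (x := x) (y := y)]

lemma ht_mem {x : X} (hx : x ∈ K X) : ht x = 0 := by
  unfold ht
  rw [if_pos ⟨x, hx⟩]
  exact Metric.infDist_zero_of_mem hx

lemma isOpen_of_ht_pos {x : X} (hx : 0 < ht x) : IsOpen ({x} : Set X) := by
  by_contra h
  have : x ∈ K X := h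
  rw [ht_mem this] at hx
  exact lt_irrefl _ hx

lemma mem_of_ht (hK : IsCompact (K X)) {x : X} (hx : ht x = 0) : x ∈ K X := by
  unfold ht at hx
  split_ifs at hx with h
  · exact (hK.isClosed.mem_iff_infDist_zero h).2 hx
  · exact absurd hx one_ne_zero

lemma ht_pos (hK : IsCompact (K X)) {x : X} (hx : x ∉ K X) : 0 < ht x :=
  lt_of_le_of_ne (ht_nonneg x) (fun h => hx (mem_of_ht hK h.symm))

/-- If the heights tend to zero along an ultrafilter then the points converge in `K`. -/
lemma exists_lim (hK : IsCompact (K X)) {ι : Type*} (U : Ultrafilter ι) (f : ι → X)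
    (h : ∀ r : ℝ, 0 < r → ∀ᶠ i in (U : Filter ι), ht (f i) < r) :
    ∃ y ∈ K X, Tendsto f U (𝓝 y) := by
  have hne : (K X).Nonempty := by
    by_contra hn
    have h1 := (h 1 one_pos).exists
    obtain ⟨i, hi⟩ := h1
    unfold ht at hi
    rw [if_neg hn] at hi
    exact lt_irrefl _ hi
  have hch : ∀ x : X, ∃ k ∈ K X, dist x k = ht x := by
    intro x
    obtain ⟨k, hk, hk'⟩ := hK.exists_infDist_eq_dist hne x
    refine ⟨k, hk, ?_⟩
    unfold ht
    rw [if_pos hne, hk']
  choose k hk hk' using hch
  obtain ⟨y, hy, hy'⟩ := hK.ultrafilter_le_nhds (U.map (fun i => k (f i)))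
    (by
      rw [le_principal_iff]
      have h1 : ∀ᶠ i in (U : Filter ι), k (f i) ∈ K X := Eventually.of_forall (fun i => hk (f i))
      exact h1)
  refine ⟨y, hy, ?_⟩
  have h1 : Tendsto (fun i => k (f i)) U (𝓝 y) := hy'
  rw [Metric.tendsto_nhds] at h1 ⊢
  intro ε hε
  filter_upwards [h1 (ε / 2) (half_pos hε), h (ε / 2) (half_pos hε)] with i h2 h3
  calc dist (f i) y ≤ dist (f i) (k (f i)) + dist (k (f i)) y := dist_triangle _ _ _
    _ = ht (f i) + dist (k (f i)) y := by rw [hk']
    _ < ε / 2 + ε / 2 := by linarith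
    _ = ε := by ring

open Classical in
/-- The modified distance. -/
noncomputable def rho (x y : X) : ℝ :=
  if x = y then 0 else min 1 (max (dist x y) (max (ht x) (ht y)))

@[simp] lemma rho_self (x : X) : rho x x = 0 := by simp [rho]

lemma rho_ne {x y : X} (h : x ≠ y) : rho x y = min 1 (max (dist x y) (max (ht x) (ht y))) := by
  simp [rho, h]

lemma rho_comm (x y : X) : rho x y = rho y x := by
  by_cases h : x = y
  · rw [h]
  · rw [rho_ne h, rho_ne (Ne.symm h), dist_comm x y, max_comm (ht x)]

lemma rho_nonneg (x y : X) : 0 ≤ rho x y := by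
  by_cases h : x = y
  · rw [h]; simp
  · rw [rho_ne h]
    exact le_min zero_le_one (le_max_of_le_left dist_nonneg)

lemma rho_le_one (x y : X) : rho x y ≤ 1 := by
  by_cases h : x = y
  · rw [h]; simp
  · rw [rho_ne h]
    exact min_le_left _ _

lemma ht_le_rho {x y : X} (h : x ≠ y) : min 1 (ht x) ≤ rho x y := by
  rw [rho_ne h]
  exact min_le_min le_rfl (le_max_of_le_right (le_max_left _ _))

lemma ht_le_rho' {x y : X} (h : x ≠ y) : min 1 (ht y) ≤ rho x y := by
  rw [rho_ne h]
  exact min_le_min le_rfl (le_max_of_le_right (le_max_right _ _))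

lemma dist_le_rho (x y : X) : min 1 (dist x y) ≤ rho x y := by
  by_cases h : x = y
  · rw [h]; simp
  · rw [rho_ne h]
    exact min_le_min le_rfl (le_max_left _ _)

lemma rho_pos {x y : X} (h : x ≠ y) : 0 < rho x y :=
  lt_of_lt_of_le (lt_min one_pos (dist_pos.2 h)) (dist_le_rho x y)

lemma rho_triangle (x y z : X) : rho x z ≤ rho x y + rho y z := by
  by_cases hxy : x = y
  · rw [hxy]; simp
  by_cases hyz : y = z
  · rw [hyz]; simp
  by_cases hxz : x = z
  · rw [hxz]; simp only [rho_self]
    exact add_nonneg (rho_nonneg _ _) (rho_nonneg _ _)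
  rcases le_or_gt 1 (rho x y + rho y z) with h | h
  · exact (rho_le_one _ _).trans h
  have h1 : rho x y < 1 := by linarith [rho_nonneg y z]
  have h2 : rho y z < 1 := by linarith [rho_nonneg x y]
  have e1 : rho x y = max (dist x y) (max (ht x) (ht y)) := by
    rw [rho_ne hxy] at h1 ⊢
    rw [min_eq_right]
    by_contra hc
    rw [min_eq_left (le_of_not_ge hc)] at h1
    exact lt_irrefl _ h1
  have e2 : rho y z = max (dist y z) (max (ht y) (ht z)) := by
    rw [rho_ne hyz] at h2 ⊢
    rw [min_eq_right]
    by_contra hc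
    rw [min_eq_left (le_of_not_ge hc)] at h2
    exact lt_irrefl _ h2
  rw [rho_ne hxz]
  refine (min_le_right _ _).trans ?_
  rw [e1, e2]
  refine max_le ?_ (max_le ?_ ?_)
  · exact (dist_triangle x y z).trans (add_le_add (le_max_left _ _) (le_max_left _ _))
  · have : ht x ≤ max (dist x y) (max (ht x) (ht y)) := le_max_of_le_right (le_max_left _ _)
    have h3 : 0 ≤ max (dist y z) (max (ht y) (ht z)) := le_max_of_le_left dist_nonneg
    linarith
  · have : ht z ≤ max (dist y z) (max (ht y) (ht z)) := le_max_of_le_right (le_max_right _ _)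
    have h3 : 0 ≤ max (dist x y) (max (ht x) (ht y)) := le_max_of_le_left dist_nonneg
    linarith

lemma rho_sub (x y z : X) : |rho x z - rho y z| ≤ rho x y := by
  rw [abs_le]
  constructor
  · have := rho_triangle y x z
    rw [rho_comm y x] at this
    linarith
  · have := rho_triangle x y z
    linarith

lemma rho_eventually (x : X) (ε : ℝ) (hε : 0 < ε) : ∀ᶠ y in 𝓝 x, rho x y < ε := by
  by_cases hx : IsOpen ({x} : Set X)
  · have : ({x} : Set X) ∈ 𝓝 x := hx.mem_nhds rfl
    filter_upwards [this] with y hy
    have hy' : y = x := hy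
    rw [hy']; simpa using hε
  · have hx' : x ∈ K X := hx
    have h0 := ht_mem hx'
    filter_upwards [Metric.ball_mem_nhds x hε] with y hy
    rw [Metric.mem_ball] at hy
    by_cases h : x = y
    · rw [h]; simpa using hε
    · rw [rho_ne h]
      refine (min_le_right _ _).trans_lt ?_
      have h1 : ht y ≤ dist y x := by
        have := ht_le y x
        rw [h0] at this
        linarith
      refine max_lt ?_ (max_lt ?_ ?_)
      · rwa [dist_comm]
      · rw [h0]; exact hε
      · exact h1.trans_lt hy

end Dist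

end Pool.Agent.J4H93.Yam
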