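import Mathlib
import Pool.Agent.J4H93.Yam1

set_option autoImplicit false

open Topology Filter Set MeasureTheory

namespace Pool.Agent.J4H93.Yam

/-- The free topology. -/
@[reducible] def FT (X : Type*) [TopologicalSpace X] : TopologicalSpace (FreeGroup X) :=
  (sInf {t : GroupTopology (FreeGroup X) |
    @Continuous X (FreeGroup X) _ t.toTopologicalSpace FreeGroup.of}).toTopologicalSpace

attribute [local instance] FT

section Free

variable {X : Type*} [TopologicalSpace X]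

instance isTG : IsTopologicalGroup (FreeGroup X) :=
  (sInf {t : GroupTopology (FreeGroup X) |
    @Continuous X (FreeGroup X) _ t.toTopologicalSpace FreeGroup.of}).toIsTopologicalGroup

lemma continuous_of : Continuous (FreeGroup.of : X → FreeGroup X) := by
  unfold FT
  rw [GroupTopology.toTopologicalSpace_sInf]
  refine continuous_sInf_rng.2 ?_
  rintro t ⟨s, hs, rfl⟩
  exact hs

/-- Neighbourhoods of the identity in the free topology. -/
lemma mem_nhds_one {ι : Type*} [Nonempty ι] (W : ι → Set (FreeGroup X))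
    (h1 : ∀ i, (1 : FreeGroup X) ∈ W i)
    (h2 : ∀ i j, ∃ k, W k ⊆ W i ∩ W j)
    (h3 : ∀ i, ∃ j, ∀ a ∈ W j, ∀ b ∈ W j, a * b ∈ W i)
    (h4 : ∀ i, ∃ j, ∀ a ∈ W j, a⁻¹ ∈ W i)
    (h5 : ∀ i (g : FreeGroup X), ∃ j, ∀ a ∈ W j, g * a * g⁻¹ ∈ W i)
    (h6 : ∀ i (x : X), ∀ᶠ y in 𝓝 x, (FreeGroup.of x)⁻¹ * FreeGroup.of y ∈ W i) (i : ι) :
    W i ∈ 𝓝 (1 : FreeGroup X) := by
  let B : GroupFilterBasis (FreeGroup X) :=
    { sets := Set.range W
      nonempty := Set.range_nonempty W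
      inter_sets := by
        rintro _ _ ⟨i, rfl⟩ ⟨j, rfl⟩
        obtain ⟨k, hk⟩ := h2 i j
        exact ⟨W k, ⟨k, rfl⟩, hk⟩
      one' := by
        rintro _ ⟨i, rfl⟩
        exact h1 i
      mul' := by
        rintro _ ⟨i, rfl⟩
        obtain ⟨j, hj⟩ := h3 i
        refine ⟨W j, ⟨j, rfl⟩, ?_⟩
        rintro _ ⟨a, ha, b, hb, rfl⟩
        exact hj a ha b hb
      inv' := by
        rintro _ ⟨i, rfl⟩
        obtain ⟨j, hj⟩ := h4 i
        exact ⟨W j, ⟨j, rfl⟩, fun a ha => hj a ha⟩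
      conj' := by
        rintro g _ ⟨i, rfl⟩
        obtain ⟨j, hj⟩ := h5 i g
        exact ⟨W j, ⟨j, rfl⟩, fun a ha => hj a ha⟩ }
  let tB : GroupTopology (FreeGroup X) :=
    { toTopologicalSpace := B.topology
      toIsTopologicalGroup := B.isTopologicalGroup }
  have hof : @Continuous X (FreeGroup X) _ tB.toTopologicalSpace FreeGroup.of := by
    refine @continuous_iff_continuousAt X (FreeGroup X) _ tB.toTopologicalSpace FreeGroup.of |>.2 ?_
    intro x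
    refine ((B.nhds_hasBasis (FreeGroup.of x)).tendsto_right_iff).2 ?_
    rintro _ ⟨i, rfl⟩
    filter_upwards [h6 i x] with y hy
    refine ⟨_, hy, ?_⟩
    simp
  have hle : FT X ≤ B.topology := by
    have : sInf {t : GroupTopology (FreeGroup X) |
      @Continuous X (FreeGroup X) _ t.toTopologicalSpace FreeGroup.of} ≤ tB := sInf_le hof
    exact this
  have hW : W i ∈ @nhds (FreeGroup X) B.topology 1 := by
    refine (B.nhds_one_hasBasis).mem_iff.2 ⟨W i, ⟨i, rfl⟩, subset_rfl⟩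
  exact (nhds_mono hle : @nhds _ (FT X) (1 : FreeGroup X) ≤ @nhds _ B.topology 1) hW

/-- Balls of conjugation invariant norms. -/
lemma norm_nhds (N : FreeGroup X → ℝ) (h1 : N 1 = 0) (h2 : ∀ a b, N (a * b) ≤ N a + N b)
    (h3 : ∀ a, N a⁻¹ = N a) (h4 : ∀ a b, N (b * a * b⁻¹) = N a)
    (h5 : ∀ x : X, ∀ ε : ℝ, 0 < ε → ∀ᶠ y in 𝓝 x, N ((FreeGroup.of x)⁻¹ * FreeGroup.of y) < ε)
    (ε : ℝ) (hε : 0 < ε) : {w | N w < ε} ∈ 𝓝 (1 : FreeGroup X) := by
  have : Nonempty {ε : ℝ // 0 < ε} := ⟨⟨1, one_pos⟩⟩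
  refine mem_nhds_one (fun e : {ε : ℝ // 0 < ε} => {w : FreeGroup X | N w < e}) ?_ ?_ ?_ ?_ ?_ ?_
    ⟨ε, hε⟩
  · rintro ⟨e, he⟩
    simpa [h1] using he
  · rintro ⟨e, he⟩ ⟨e', he'⟩
    refine ⟨⟨min e e', lt_min he he'⟩, ?_⟩
    intro w hw
    have hw' : N w < min e e' := hw
    exact ⟨(lt_min_iff.1 hw').1, (lt_min_iff.1 hw').2⟩
  · rintro ⟨e, he⟩
    refine ⟨⟨e / 2, half_pos he⟩, ?_⟩
    intro a ha b hb
    have ha' : N a < e / 2 := ha
    have hb' : N b < e / 2 := hb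
    show N (a * b) < e
    linarith [h2 a b]
  · rintro ⟨e, he⟩
    refine ⟨⟨e, he⟩, ?_⟩
    intro a ha
    show N a⁻¹ < e
    rw [h3]; exact ha
  · rintro ⟨e, he⟩ g
    refine ⟨⟨e, he⟩, ?_⟩
    intro a ha
    show N (g * a * g⁻¹) < e
    rw [h4]; exact ha
  · rintro ⟨e, he⟩ x
    exact h5 x e he

end Free

end Pool.Agent.J4H93.Yam
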