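import Mathlib
import Pool.Agent.J4H93.Yam2

set_option autoImplicit false

open Topology Filter Set MeasureTheory

namespace Pool.Agent.J4H93.Yam

attribute [local instance] FT

section Key

variable {X : Type*} [MetricSpace X]

open Classical in
/-- Random maps. -/
noncomputable def psi (r r' : ℝ) (Z : Finset X) (t : ℝ) (x : X) : FreeGroup X :=
  if r ≤ ht x then FreeGroup.of x
  else if h : ∃ z ∈ Z, rho x z < t * r' then FreeGroup.of h.choose else 1

lemma psi_far {r r' : ℝ} {Z : Finset X} {t : ℝ} {x : X} (h : r ≤ ht x) :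
    psi r r' Z t x = FreeGroup.of x := by
  simp [psi, h]

lemma psi_near {r r' : ℝ} {Z : Finset X} {t : ℝ} {x z : X} (h : ht x < r)
    (hr' : 0 < r') (hZ : ∀ z ∈ Z, ∀ z' ∈ Z, z ≠ z' → 2 * r' ≤ rho z z') (ht1 : t ≤ 1)
    (hz : z ∈ Z) (hxz : rho x z < t * r') :
    psi r r' Z t x = FreeGroup.of z := by
  have hex : ∃ z ∈ Z, rho x z < t * r' := ⟨z, hz, hxz⟩
  unfold psi
  rw [if_neg (not_le.2 h), dif_pos hex]
  congr 1
  by_contra hne
  have h1 := hZ _ hex.choose_spec.1 z hz hne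
  have h2 := rho_triangle hex.choose x z
  have h3 := hex.choose_spec.2
  rw [rho_comm] at h3
  nlinarith

lemma psi_none {r r' : ℝ} {Z : Finset X} {t : ℝ} {x : X} (h : ht x < r)
    (hxz : ∀ z ∈ Z, t * r' ≤ rho x z) :
    psi r r' Z t x = 1 := by
  unfold psi
  rw [if_neg (not_le.2 h), dif_neg]
  rintro ⟨z, hz, hz'⟩
  exact absurd hz' (not_lt.2 (hxz z hz))

/-- Times at which a word survives. -/
def bad (r r' : ℝ) (Z : Finset X) (w : FreeGroup X) : Set ℝ :=
  {t | t ∈ Ioo (0 : ℝ) 1 ∧ FreeGroup.lift (psi r r' Z t) w ≠ 1}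

/-- The norm. -/
noncomputable def Nm (r r' : ℝ) (Z : Finset X) (w : FreeGroup X) : ℝ :=
  volume.real (bad r r' Z w)

lemma bad_fin (r r' : ℝ) (Z : Finset X) (w : FreeGroup X) : volume (bad r r' Z w) ≠ ⊤ := by
  refine ne_top_of_le_ne_top ?_ (measure_mono (fun t ht => ht.1))
  simp

lemma Nm_one (r r' : ℝ) (Z : Finset X) : Nm r r' Z 1 = 0 := by
  have : bad r r' Z 1 = ∅ := by
    ext t; simp [bad]
  simp [Nm, this]

lemma Nm_mul (r r' : ℝ) (Z : Finset X) (a b : FreeGroup X) :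
    Nm r r' Z (a * b) ≤ Nm r r' Z a + Nm r r' Z b := by
  have hsub : bad r r' Z (a * b) ⊆ bad r r' Z a ∪ bad r r' Z b := by
    intro t ht
    by_contra hc
    simp only [bad, Set.mem_union, Set.mem_ofPred_eq, not_or, not_and, not_not] at hc ht
    obtain ⟨h1, h2⟩ := ht
    apply h2
    rw [map_mul, hc.1 h1, hc.2 h1, mul_one]
  unfold Nm
  refine (measureReal_mono hsub ?_).trans (measureReal_union_le _ _)
  exact (measure_union_lt_top (bad_fin _ _ _ _).lt_top (bad_fin _ _ _ _).lt_top).ne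

lemma Nm_inv (r r' : ℝ) (Z : Finset X) (a : FreeGroup X) :
    Nm r r' Z a⁻¹ = Nm r r' Z a := by
  have : bad r r' Z a⁻¹ = bad r r' Z a := by
    ext t; simp [bad]
  simp [Nm, this]

lemma Nm_conj (r r' : ℝ) (Z : Finset X) (a b : FreeGroup X) :
    Nm r r' Z (b * a * b⁻¹) = Nm r r' Z a := by
  have : bad r r' Z (b * a * b⁻¹) = bad r r' Z a := by
    ext t
    simp only [bad, Set.mem_ofPred_eq, map_mul, map_inv, ne_eq, conj_eq_one_iff]
  simp [Nm, this]

lemma Nm_le {r r' : ℝ} (hr' : 0 < r') {Z : Finset X}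
    (hZ : ∀ z ∈ Z, ∀ z' ∈ Z, z ≠ z' → 2 * r' ≤ rho z z')
    {x y : X} (h : rho x y < min 1 r) :
    Nm r r' Z ((FreeGroup.of x)⁻¹ * FreeGroup.of y) ≤ Z.card * (rho x y / r') := by
  by_cases hxy : x = y
  · subst hxy
    simp [Nm_one]
  have hx : ht x < r := by
    by_contra hc
    have := ht_le_rho hxy
    have h2 : min 1 r ≤ min 1 (ht x) := min_le_min le_rfl (not_lt.1 hc)
    linarith
  have hy : ht y < r := by
    by_contra hc
    have := ht_le_rho' hxy
    have h2 : min 1 r ≤ min 1 (ht y) := min_le_min le_rfl (not_lt.1 hc)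
    linarith
  have hsub : bad r r' Z ((FreeGroup.of x)⁻¹ * FreeGroup.of y) ⊆
      ⋃ z ∈ Z, Set.uIcc (rho x z / r') (rho y z / r') := by
    rintro t ⟨ht, hne⟩
    by_contra hc
    apply hne
    simp only [Set.mem_iUnion, not_exists] at hc
    have hiff : ∀ z ∈ Z, (rho x z < t * r' ↔ rho y z < t * r') := by
      intro z hz
      have h1 := hc z hz
      rw [Set.mem_uIcc] at h1
      push Not at h1
      rw [← div_lt_iff₀ hr', ← div_lt_iff₀ hr']
      constructor
      · intro h2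
        by_contra h3
        exact absurd (h1.1 h2.le) (not_lt.2 (not_lt.1 h3))
      · intro h2
        by_contra h3
        exact absurd (h1.2 h2.le) (not_lt.2 (not_lt.1 h3))
    rw [map_mul, map_inv, FreeGroup.lift_apply_of, FreeGroup.lift_apply_of]
    by_cases hex : ∃ z ∈ Z, rho x z < t * r'
    · obtain ⟨z, hz, hxz⟩ := hex
      rw [psi_near hx hr' hZ ht.2.le hz hxz, psi_near hy hr' hZ ht.2.le hz ((hiff z hz).1 hxz)]
      simp
    · push Not at hex
      rw [psi_none hx hex, psi_none hy]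
      · simp
      · intro z hz
        by_contra h3
        exact absurd ((hiff z hz).2 (not_le.1 h3)) (not_lt.2 (hex z hz))
  have hfin : volume (⋃ z ∈ Z, Set.uIcc (rho x z / r') (rho y z / r')) ≠ ⊤ := by
    refine ne_top_of_le_ne_top ?_ (measure_biUnion_finset_le Z _)
    refine (ENNReal.sum_lt_top.2 ?_).ne
    intro z _
    rw [Real.volume_interval]
    exact ENNReal.ofReal_lt_top
  unfold Nm
  refine (measureReal_mono hsub hfin).trans ?_
  refine (measureReal_biUnion_finset_le Z _).trans ?_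
  have : ∀ z ∈ Z, volume.real (Set.uIcc (rho x z / r') (rho y z / r')) ≤ rho x y / r' := by
    intro z _
    rw [Measure.real, Real.volume_interval, ENNReal.toReal_ofReal (abs_nonneg _), ← sub_div, abs_div,
      abs_of_pos hr', rho_comm x y]
    exact div_le_div_of_nonneg_right (rho_sub y x z) hr'.le
  refine (Finset.sum_le_sum this).trans ?_
  simp

lemma Nm_nhds {r r' : ℝ} (hr : 0 < r) (hr' : 0 < r') {Z : Finset X}
    (hZ : ∀ z ∈ Z, ∀ z' ∈ Z, z ≠ z' → 2 * r' ≤ rho z z') (ε : ℝ) (hε : 0 < ε) :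
    {w | Nm r r' Z w < ε} ∈ 𝓝 (1 : FreeGroup X) := by
  refine norm_nhds (Nm r r' Z) (Nm_one _ _ _) (Nm_mul _ _ _) (Nm_inv _ _ _) (Nm_conj _ _ _) ?_ ε hε
  intro x e he
  have h1 := rho_eventually x (min 1 r) (lt_min one_pos hr)
  have h2 := rho_eventually x (e * r' / (Z.card + 1)) (by positivity)
  filter_upwards [h1, h2] with y h3 h4
  refine (Nm_le hr' hZ h3).trans_lt ?_
  rw [lt_div_iff₀ (by positivity)] at h4
  rw [← mul_div_assoc, div_lt_iff₀ hr']
  have := rho_nonneg x y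
  nlinarith

omit [MetricSpace X] in
lemma lift_ofFn {n : ℕ} {G : Type*} [Group G] (φ : X → G) (f : Fin n → X) (p : Fin n → Bool) :
    FreeGroup.lift φ (FreeGroup.mk (List.ofFn fun j => (f j, p j))) =
      (List.ofFn fun j => cond (p j) (φ (f j)) (φ (f j))⁻¹).prod := by
  rw [FreeGroup.lift_mk, List.map_ofFn]
  rfl

omit [MetricSpace X] in
lemma lift_ofFn' {n : ℕ} (φ : X → FreeGroup X) (f f' : Fin n → X) (p : Fin n → Bool)
    (h : ∀ j, φ (f j) = FreeGroup.of (f' j)) :
    FreeGroup.lift φ (FreeGroup.mk (List.ofFn fun j => (f j, p j))) =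
      FreeGroup.mk (List.ofFn fun j => (f' j, p j)) := by
  have h1 : FreeGroup.mk (List.ofFn fun j => (f' j, p j)) =
      FreeGroup.lift FreeGroup.of (FreeGroup.mk (List.ofFn fun j => (f' j, p j))) :=
    (FreeGroup.lift_of_apply _).symm
  rw [h1, lift_ofFn, lift_ofFn]
  simp only [h]

omit [MetricSpace X] in
lemma lift_fix [DecidableEq X] (φ : X → FreeGroup X) (g : FreeGroup X)
    (h : ∀ q ∈ g.toWord, φ q.1 = FreeGroup.of q.1) :
    FreeGroup.lift φ g = g := by
  have h1 : FreeGroup.lift φ g = FreeGroup.lift φ (FreeGroup.mk g.toWord) := by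
    rw [FreeGroup.mk_toWord]
  have h2 : g = FreeGroup.lift FreeGroup.of (FreeGroup.mk g.toWord) := by
    rw [FreeGroup.lift_of_apply, FreeGroup.mk_toWord]
  conv_rhs => rw [h2]
  rw [h1, FreeGroup.lift_mk, FreeGroup.lift_mk]
  congr 1
  refine List.map_congr_left ?_
  intro q hq
  rw [h q hq]

/-- The key lemma. -/
lemma key {ι : Type*} (U : Ultrafilter ι) (hK : IsCompact (K X)) {n : ℕ} (p : Fin n → Bool)
    (f f' : ι → Fin n → X) (y : Fin n → X) (g : FreeGroup X)
    (hf : ∀ j, (∃ r : ℝ, 0 < r ∧ ∀ᶠ i in (U : Filter ι), r ≤ ht (f i j) ∧ f' i j = f i j) ∨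
      (y j ∈ K X ∧ (∀ᶠ i in (U : Filter ι), f' i j = y j) ∧
        Tendsto (fun i => f i j) U (𝓝 (y j))))
    (hg : Tendsto (fun i => FreeGroup.mk (List.ofFn fun j => (f i j, p j))) U (𝓝 g)) :
    ∀ᶠ i in (U : Filter ι), FreeGroup.mk (List.ofFn fun j => (f' i j, p j)) = g := by
  classical
  let Z : Finset X := ((Finset.univ.image y) ∪ (g.toWord.map Prod.fst).toFinset).filter (· ∈ K X)
  have hZ1 : ∀ j, y j ∈ K X → y j ∈ Z := by
    intro j hj
    simp [Z, hj]
  have hZ2 : ∀ q ∈ g.toWord, q.1 ∈ K X → q.1 ∈ Z := by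
    intro q hq hj
    simp only [Z, Finset.mem_filter, Finset.mem_union, List.mem_toFinset, List.mem_map]
    exact ⟨Or.inr ⟨q, hq, rfl⟩, hj⟩
  -- the height scale
  have hr : ∀ᶠ r in 𝓝[>] (0 : ℝ), (∀ j, (∀ᶠ i in (U : Filter ι), r ≤ ht (f i j) ∧ f' i j = f i j) ∨
      (y j ∈ K X ∧ (∀ᶠ i in (U : Filter ι), f' i j = y j) ∧
        Tendsto (fun i => f i j) U (𝓝 (y j)))) := by
    rw [eventually_all]
    intro j
    rcases hf j with ⟨r0, hr0, h⟩ | h
    · filter_upwards [Ioo_mem_nhdsGT hr0] with r hr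
      left
      filter_upwards [h] with i hi
      exact ⟨hr.2.le.trans hi.1, hi.2⟩
    · exact Eventually.of_forall (fun _ => Or.inr h)
  have hr2 : ∀ᶠ r in 𝓝[>] (0 : ℝ), ∀ q ∈ {q | q ∈ g.toWord}, q.1 ∉ K X → r ≤ ht q.1 := by
    rw [eventually_all_finite (List.finite_toSet _)]
    intro q _
    by_cases hq : q.1 ∈ K X
    · exact Eventually.of_forall (fun _ h => absurd hq h)
    · filter_upwards [Ioo_mem_nhdsGT (ht_pos hK hq)] with r hr _
      exact hr.2.le
  have hr3 : ∀ᶠ r in 𝓝[>] (0 : ℝ), 0 < r := by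
    filter_upwards [Ioo_mem_nhdsGT (one_pos : (0 : ℝ) < 1)] with r hr
    exact hr.1
  obtain ⟨r, hr, hr2, hr3⟩ := (hr.and (hr2.and hr3)).exists
  have hs : ∀ᶠ s in 𝓝[>] (0 : ℝ), ∀ z ∈ (Z : Set X), ∀ z' ∈ (Z : Set X), z ≠ z' →
      2 * s ≤ rho z z' := by
    rw [eventually_all_finite (Finset.finite_toSet _)]
    intro z _
    rw [eventually_all_finite (Finset.finite_toSet _)]
    intro z' _
    by_cases h : z = z'
    · exact Eventually.of_forall (fun _ h' => absurd h h')
    · filter_upwards [Ioo_mem_nhdsGT (half_pos (rho_pos h))] with s hs _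
      linarith [hs.2]
  obtain ⟨r', hZ, hr'⟩ := (hs.and (show ∀ᶠ r in 𝓝[>] (0 : ℝ), 0 < r by
    filter_upwards [Ioo_mem_nhdsGT (one_pos : (0 : ℝ) < 1)] with r hr
    exact hr.1)).exists
  have hZ' : ∀ z ∈ Z, ∀ z' ∈ Z, z ≠ z' → 2 * r' ≤ rho z z' := fun z hz z' hz' =>
    hZ z (by exact_mod_cast hz) z' (by exact_mod_cast hz')
  -- the limit of words
  have hgood : ∀ᶠ i in (U : Filter ι), ∀ j, (r ≤ ht (f i j) ∧ f' i j = f i j) ∨
      (ht (f i j) < r ∧ f' i j ∈ Z ∧ rho (f i j) (f' i j) < r' / 2) := by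
    rw [eventually_all]
    intro j
    rcases hr j with h | ⟨h1, h2, h3⟩
    · filter_upwards [h] with i hi
      exact Or.inl hi
    · have h4 : ∀ᶠ x in 𝓝 (y j), rho (y j) x < r' / 2 := rho_eventually _ _ (half_pos hr')
      have h5 : ∀ᶠ x in 𝓝 (y j), ht x < r := by
        filter_upwards [Metric.ball_mem_nhds (y j) hr3] with x hx
        have := ht_le x (y j)
        rw [ht_mem h1, zero_add] at this
        exact this.trans_lt hx
      filter_upwards [h2, h3.eventually h4, h3.eventually h5] with i hi2 hi4 hi5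
      right
      rw [hi2]
      refine ⟨hi5, hZ1 j h1, ?_⟩
      rw [rho_comm]; exact hi4
  have hlim : ∀ᶠ i in (U : Filter ι),
      Nm r r' Z (g⁻¹ * FreeGroup.mk (List.ofFn fun j => (f i j, p j))) < 1 / 2 := by
    have h1 : Tendsto (fun i => g⁻¹ * FreeGroup.mk (List.ofFn fun j => (f i j, p j))) U
        (𝓝 (g⁻¹ * g)) := hg.const_mul g⁻¹
    rw [inv_mul_cancel] at h1
    exact h1.eventually (Nm_nhds hr3 hr' hZ' (1 / 2) (by norm_num))
  filter_upwards [hgood, hlim] with i hi1 hi2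
  by_contra hne
  have hsub : Set.Ico (1 / 2 : ℝ) 1 ⊆
      bad r r' Z (g⁻¹ * FreeGroup.mk (List.ofFn fun j => (f i j, p j))) := by
    intro t ht
    refine ⟨⟨by linarith [ht.1], ht.2⟩, ?_⟩
    rw [map_mul, map_inv]
    have e1 : FreeGroup.lift (psi r r' Z t) g = g := by
      apply lift_fix
      intro q hq
      by_cases hqK : q.1 ∈ K X
      · have h0 := ht_mem hqK
        refine psi_near (by rw [h0]; exact hr3) hr' hZ' ht.2.le (hZ2 q hq hqK) ?_
        rw [rho_self]
        have := ht.1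
        positivity
      · exact psi_far (hr2 q hq hqK)
    have e2 : FreeGroup.lift (psi r r' Z t) (FreeGroup.mk (List.ofFn fun j => (f i j, p j))) =
        FreeGroup.mk (List.ofFn fun j => (f' i j, p j)) := by
      apply lift_ofFn'
      intro j
      rcases hi1 j with ⟨h1, h2⟩ | ⟨h1, h2, h3⟩
      · rw [h2]; exact psi_far h1
      · refine psi_near h1 hr' hZ' ht.2.le h2 ?_
        have := ht.1
        nlinarith
    rw [e1, e2]
    intro h
    apply hne
    exact (inv_mul_eq_one.1 h).symm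
  have h3 := measureReal_mono (μ := volume) hsub (bad_fin _ _ _ _)
  have h4 : volume.real (Set.Ico (1 / 2 : ℝ) 1) = 1 / 2 := by
    rw [Measure.real, Real.volume_Ico, ENNReal.toReal_ofReal (by norm_num)]
    norm_num
  rw [h4] at h3
  unfold Nm at hi2
  linarith

end Key

end Pool.Agent.J4H93.Yam
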