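import Mathlib
import Pool.Agent.J4H93.Yam3

set_option autoImplicit false

open Topology Filter Set MeasureTheory

namespace Pool.Agent.J4H93.Yam

attribute [local instance] FT

section Box

variable {X : Type*} [MetricSpace X]

lemma perm_apply_inv {α : Type*} (e : Equiv.Perm α) (m : α) : e (e⁻¹ m) = m :=
  e.apply_symm_apply m

omit [MetricSpace X] in
lemma mk_single (x : X) (b : Bool) :
    (FreeGroup.mk [(x, b)] : FreeGroup X) = cond b (FreeGroup.of x) (FreeGroup.of x)⁻¹ := by
  cases b
  · simp [FreeGroup.of, FreeGroup.invRev]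
  · simp [FreeGroup.of]

omit [MetricSpace X] in
lemma mk_pair (u v : X) (b : Bool) :
    (FreeGroup.mk [(u, b), (v, !b)] : FreeGroup X) =
      FreeGroup.mk [(u, b)] * (FreeGroup.mk [(v, b)])⁻¹ := by
  rw [FreeGroup.inv_mk, FreeGroup.mul_mk]
  simp [FreeGroup.invRev]

omit [MetricSpace X] in
lemma mk_nest (x u v : X) (b c : Bool) :
    (FreeGroup.mk [(x, b), (u, c), (v, !c), (x, !b)] : FreeGroup X) =
      FreeGroup.mk [(x, b)] * FreeGroup.mk [(u, c), (v, !c)] * (FreeGroup.mk [(x, b)])⁻¹ := by
  rw [FreeGroup.inv_mk, FreeGroup.mul_mk, FreeGroup.mul_mk]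
  simp [FreeGroup.invRev]

lemma continuous_single (b : Bool) : Continuous (fun x : X => FreeGroup.mk [(x, b)]) := by
  simp only [mk_single]
  cases b
  · exact continuous_of.inv
  · exact continuous_of

lemma pair_tendsto {ι : Type*} (hK : IsCompact (K X)) (U : Ultrafilter ι) (u v : ι → X) (b : Bool)
    (h : ∀ ε : ℝ, 0 < ε → ∀ᶠ i in (U : Filter ι), rho (u i) (v i) < ε) :
    Tendsto (fun i => (FreeGroup.mk [(u i, b), (v i, !b)] : FreeGroup X)) U (𝓝 1) := by
  rcases U.em (fun i => u i = v i) with h1 | h1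
  · refine Tendsto.congr' ?_ tendsto_const_nhds
    filter_upwards [h1] with i hi
    rw [hi, mk_pair, mul_inv_cancel]
  · obtain ⟨y, hy, hu⟩ := exists_lim hK U u (by
      intro r hr
      filter_upwards [h (min 1 r) (lt_min one_pos hr), h1] with i h2 h3
      by_contra hc
      have h4 := ht_le_rho h3
      have h5 : min 1 r ≤ min 1 (ht (u i)) := min_le_min le_rfl (not_lt.1 hc)
      linarith)
    have hv : Tendsto v U (𝓝 y) := by
      rw [Metric.tendsto_nhds] at hu ⊢
      intro ε hε
      filter_upwards [h (min 1 (ε / 2)) (lt_min one_pos (half_pos hε)), hu (ε / 2) (half_pos hε)]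
        with i h2 h3
      have h4 := dist_le_rho (u i) (v i)
      have h5 : dist (u i) (v i) < ε / 2 := by
        by_contra hc
        have h6 : min 1 (ε / 2) ≤ min 1 (dist (u i) (v i)) := min_le_min le_rfl (not_lt.1 hc)
        linarith
      calc dist (v i) y ≤ dist (v i) (u i) + dist (u i) y := dist_triangle _ _ _
        _ < ε / 2 + ε / 2 := by rw [dist_comm (v i)]; linarith
        _ = ε := by ring
    have h2 := ((continuous_single b).tendsto y).comp hu
    have h3 := ((continuous_single b).tendsto y).comp hv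
    have h4 := h2.mul h3.inv
    rw [mul_inv_cancel] at h4
    refine h4.congr ?_
    intro i
    rw [mk_pair]
    rfl

/-- The shift action. -/
def sh (X : Type*) : FreeGroup X →* Equiv.Perm (FreeGroup X → X → ℝ) where
  toFun s :=
    { toFun := fun m s' => m (s⁻¹ * s')
      invFun := fun m s' => m (s * s')
      left_inv := by intro m; funext s'; simp
      right_inv := by intro m; funext s'; simp }
  map_one' := by
    ext m s' z
    simp
  map_mul' := by
    intro s t
    ext m s' z
    simp [mul_assoc]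

omit [MetricSpace X] in
lemma sh_apply (s : FreeGroup X) (m : FreeGroup X → X → ℝ) (s' : FreeGroup X) :
    sh X s m s' = m (s⁻¹ * s') := rfl

open Classical in
/-- The translation by the function of a point. -/
noncomputable def tr (b : X) : Equiv.Perm (FreeGroup X → X → ℝ) where
  toFun m s z := m s z + if s = 1 then rho b z else 0
  invFun m s z := m s z - if s = 1 then rho b z else 0
  left_inv := by intro m; funext s z; simp
  right_inv := by intro m; funext s z; simp

open Classical in
lemma tr_apply (b : X) (m : FreeGroup X → X → ℝ) (s : FreeGroup X) (z : X) :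
    tr b m s z = m s z + if s = 1 then rho b z else 0 := rfl

open Classical in
lemma tr_inv_apply (b : X) (m : FreeGroup X → X → ℝ) (s : FreeGroup X) (z : X) :
    (tr b)⁻¹ m s z = m s z - if s = 1 then rho b z else 0 := rfl

open Classical in
/-- The representation. -/
noncomputable def rep (r : ℝ) : FreeGroup X →* Equiv.Perm (FreeGroup X → X → ℝ) :=
  FreeGroup.lift (fun x => if r ≤ ht x then sh X (FreeGroup.of x) else tr x)

lemma rep_far {r : ℝ} {x : X} (h : r ≤ ht x) : rep r (FreeGroup.of x) = sh X (FreeGroup.of x) := by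
  simp [rep, h]

lemma rep_near {r : ℝ} {x : X} (h : ht x < r) : rep r (FreeGroup.of x) = tr x := by
  simp [rep, not_le.2 h]

lemma rep_single {r : ℝ} {x : X} (h : r ≤ ht x) (b : Bool) :
    rep r (FreeGroup.mk [(x, b)]) = sh X (FreeGroup.mk [(x, b)]) := by
  rw [mk_single]
  cases b
  · simp only [cond_false, map_inv, rep_far h]
  · simp only [cond_true, rep_far h]

lemma rep_affine (r : ℝ) (w : FreeGroup X) :
    ∃ s0 : FreeGroup X, ∀ (m m' : FreeGroup X → X → ℝ) (s : FreeGroup X) (z : X),
      rep r w m s z - rep r w m' s z = m (s0⁻¹ * s) z - m' (s0⁻¹ * s) z := by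
  induction w using FreeGroup.induction_on with
  | C1 => exact ⟨1, fun m m' s z => by simp⟩
  | of x =>
    by_cases h : r ≤ ht x
    · refine ⟨FreeGroup.of x, fun m m' s z => ?_⟩
      rw [rep_far h, sh_apply, sh_apply]
    · refine ⟨1, fun m m' s z => ?_⟩
      rw [rep_near (not_le.1 h), tr_apply, tr_apply]
      simp
  | inv_of x ih =>
    obtain ⟨s0, h⟩ := ih
    refine ⟨s0⁻¹, fun m m' s z => ?_⟩
    have h1 := h ((rep r (FreeGroup.of x))⁻¹ m) ((rep r (FreeGroup.of x))⁻¹ m') (s0 * s) z
    rw [perm_apply_inv, perm_apply_inv, inv_mul_cancel_left] at h1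
    rw [map_inv, inv_inv, h1]
  | mul a b ha hb =>
    obtain ⟨s0, h⟩ := ha
    obtain ⟨s1, h'⟩ := hb
    refine ⟨s0 * s1, fun m m' s z => ?_⟩
    rw [map_mul, Equiv.Perm.mul_apply, Equiv.Perm.mul_apply, h, h', mul_inv_rev, mul_assoc]

/-- The box neighbourhoods. -/
def box (r : ℝ) (q : FreeGroup X → ℝ) : Set (FreeGroup X) :=
  {w | ∀ (m : FreeGroup X → X → ℝ) (s : FreeGroup X) (z : X), |rep r w m s z - m s z| < q s}

lemma ht_eventually {r : ℝ} {x : X} (h : ht x < r) : ∀ᶠ y in 𝓝 x, ht y < r := by
  filter_upwards [Metric.ball_mem_nhds x (sub_pos.2 h)] with y hy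
  have := ht_le y x
  rw [Metric.mem_ball] at hy
  linarith

lemma box_nhds {r : ℝ} (hr : 0 < r) (q : FreeGroup X → ℝ) (hq : ∀ s, 0 < q s) :
    box r q ∈ 𝓝 (1 : FreeGroup X) := by
  have hne : Nonempty {q : FreeGroup X → ℝ // ∀ s, 0 < q s} := ⟨⟨q, hq⟩⟩
  refine mem_nhds_one (fun q : {q : FreeGroup X → ℝ // ∀ s, 0 < q s} => box r q.1)
    ?_ ?_ ?_ ?_ ?_ ?_ ⟨q, hq⟩
  · rintro ⟨q, hq⟩ m s z
    simpa using hq s
  · rintro ⟨q, hq⟩ ⟨q', hq'⟩
    refine ⟨⟨fun s => min (q s) (q' s), fun s => lt_min (hq s) (hq' s)⟩, ?_⟩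
    intro w hw
    exact ⟨fun m s z => (hw m s z).trans_le (min_le_left _ _),
      fun m s z => (hw m s z).trans_le (min_le_right _ _)⟩
  · rintro ⟨q, hq⟩
    refine ⟨⟨fun s => q s / 2, fun s => half_pos (hq s)⟩, ?_⟩
    intro a ha b hb m s z
    have h1 := ha (rep r b m) s z
    have h2 := hb m s z
    rw [map_mul, Equiv.Perm.mul_apply]
    have h3 := abs_sub_le (rep r a (rep r b m) s z) (rep r b m s z) (m s z)
    simp only at h1 h2 ⊢
    linarith
  · rintro ⟨q, hq⟩
    refine ⟨⟨q, hq⟩, ?_⟩
    intro a ha m s z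
    have h1 := ha ((rep r a)⁻¹ m) s z
    rw [perm_apply_inv] at h1
    rw [map_inv, abs_sub_comm]
    exact h1
  · rintro ⟨q, hq⟩ g
    obtain ⟨s0, h⟩ := rep_affine r g
    refine ⟨⟨fun s => q (s0 * s), fun s => hq _⟩, ?_⟩
    intro a ha m s z
    have h1 := ha ((rep r g)⁻¹ m) (s0⁻¹ * s) z
    have h2 := h (rep r a ((rep r g)⁻¹ m)) ((rep r g)⁻¹ m) s z
    rw [perm_apply_inv] at h2
    rw [map_mul, map_mul, map_inv, Equiv.Perm.mul_apply, Equiv.Perm.mul_apply, h2]
    simp only [mul_inv_cancel_left] at h1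
    exact h1
  · rintro ⟨q, hq⟩ x
    by_cases hx : r ≤ ht x
    · have h1 : ({x} : Set X) ∈ 𝓝 x := (isOpen_of_ht_pos (hr.trans_le hx)).mem_nhds rfl
      filter_upwards [h1] with y hy
      have hy' : y = x := hy
      subst hy'
      intro m s z
      simpa using hq s
    · filter_upwards [rho_eventually x (q 1) (hq 1), ht_eventually (not_le.1 hx)] with y h1 h2
      intro m s z
      rw [map_mul, map_inv, Equiv.Perm.mul_apply, rep_near (not_le.1 hx), rep_near h2,
        tr_inv_apply, tr_apply]
      by_cases hs : s = 1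
      · subst hs
        simp only [if_true]
        have h3 := rho_sub y x z
        rw [rho_comm] at h1
        have h4 : m 1 z + rho y z - rho x z - m 1 z = rho y z - rho x z := by ring
        rw [h4]
        exact h3.trans_lt h1
      · simpa [hs] using hq s

/-- The nested words avoid a box neighbourhood. -/
lemma nested {r : ℝ} (hr : 0 < r) (b c : Bool) (q : X → ℝ) (hq : ∀ x, 0 < q x) :
    ∃ W ∈ 𝓝 (1 : FreeGroup X), ∀ x u v : X, r ≤ ht x → ht u < r → ht v < r →
      FreeGroup.mk [(x, b), (u, c), (v, !c), (x, !b)] ∈ W → rho u v < q x := by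
  have hinj : Function.Injective (fun x : X => (FreeGroup.mk [(x, b)] : FreeGroup X)) := by
    intro x y hxy
    simp only [mk_single] at hxy
    cases b
    · simp only [cond_false, inv_inj] at hxy
      exact FreeGroup.of_injective hxy
    · exact FreeGroup.of_injective hxy
  refine ⟨box r (Function.extend (fun x : X => (FreeGroup.mk [(x, b)] : FreeGroup X)) q
    (fun _ => 1)), box_nhds hr _ ?_, ?_⟩
  · intro s
    by_cases h : ∃ x, FreeGroup.mk [(x, b)] = s
    · obtain ⟨x, rfl⟩ := h
      rw [hinj.extend_apply]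
      exact hq x
    · rw [Function.extend_apply' _ _ _ h]
      exact one_pos
  · intro x u v hx hu hv hw
    have h1 := hw (fun _ _ => 0) (FreeGroup.mk [(x, b)]) v
    rw [hinj.extend_apply] at h1
    rw [mk_nest, map_mul, map_mul, map_inv, rep_single hx, Equiv.Perm.mul_apply,
      Equiv.Perm.mul_apply, ← map_inv, sh_apply, inv_mul_cancel] at h1
    have h2 : sh X (FreeGroup.mk [(x, b)])⁻¹ (fun _ _ => (0 : ℝ)) = fun _ _ => 0 := rfl
    rw [h2, mk_pair, mk_single, mk_single, map_mul, Equiv.Perm.mul_apply] at h1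
    cases c
    · simp only [cond_false, inv_inv, map_inv, rep_near hu, rep_near hv, tr_inv_apply,
        tr_apply, if_true, rho_self] at h1
      have h3 : (0 : ℝ) + 0 - rho u v - 0 = - rho u v := by ring
      rw [h3, abs_neg, abs_of_nonneg (rho_nonneg _ _)] at h1
      exact h1
    · simp only [cond_true, map_inv, rep_near hu, rep_near hv, tr_inv_apply,
        tr_apply, if_true, rho_self] at h1
      have h3 : (0 : ℝ) - 0 + rho u v - 0 = rho u v := by ring
      rw [h3, abs_of_nonneg (rho_nonneg _ _)] at h1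
      exact h1

end Box

end Pool.Agent.J4H93.Yam
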