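import Mathlib
import Pool.Agent.J4H93.Yam4

set_option autoImplicit false

open Topology Filter Set MeasureTheory

namespace Pool.Agent.J4H93.Yam

section Comb

variable {X : Type*}

/-- Cancelling letters. -/
def cc (a b : X × Bool) : Prop := a.1 = b.1 ∧ a.2 = !b.2

open Classical in
lemma redc (a b : X × Bool) (L tl : List (X × Bool)) (h : FreeGroup.reduce L = b :: tl) :
    FreeGroup.reduce (a :: L) = if cc a b then tl else a :: b :: tl := by
  rw [FreeGroup.reduce.cons, h]
  show (if a.1 = b.1 ∧ a.2 = !b.2 then tl else a :: b :: tl) = _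
  by_cases hc : cc a b
  · rw [if_pos hc]
    exact if_pos hc
  · rw [if_neg hc]
    exact if_neg hc

open Classical in
lemma redn (a : X × Bool) (L : List (X × Bool)) (h : FreeGroup.reduce L = []) :
    FreeGroup.reduce (a :: L) = [a] := by
  rw [FreeGroup.reduce.cons, h]

open Classical in
lemma red2 (a b : X × Bool) :
    FreeGroup.reduce [a, b] = if cc a b then [] else [a, b] :=
  redc a b [b] [] (FreeGroup.reduce_singleton b)

open Classical in
lemma red3 (a b c : X × Bool) :
    FreeGroup.reduce [a, b, c] = if cc b c then [a] else if cc a b then [c] else [a, b, c] := by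
  by_cases h1 : cc b c
  · rw [if_pos h1]
    exact redn a _ (by rw [red2, if_pos h1])
  · rw [if_neg h1]
    exact redc a b _ _ (by rw [red2, if_neg h1])

open Classical in
lemma red4 (a b c d : X × Bool) :
    FreeGroup.reduce [a, b, c, d] =
      if cc c d then (if cc a b then [] else [a, b])
      else if cc b c then (if cc a d then [] else [a, d])
      else if cc a b then [c, d] else [a, b, c, d] := by
  by_cases h1 : cc c d
  · rw [if_pos h1]
    exact redc a b _ _ (by rw [red3, if_pos h1])
  rw [if_neg h1]
  by_cases h2 : cc b c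
  · rw [if_pos h2]
    exact redc a d _ _ (by rw [red3, if_neg h1, if_pos h2])
  rw [if_neg h2]
  exact redc a b _ _ (by rw [red3, if_neg h1, if_neg h2])

lemma not_cc {a b : X × Bool} (h : a.1 = b.1 → a.2 = b.2) : ¬ cc a b := by
  rintro ⟨h1, h2⟩
  have h3 := h h1
  rw [h2] at h3
  cases hb : b.2 <;> rw [hb] at h3 <;> exact absurd h3 (by decide)

/-- Two adjacent letters cancelling in the limit are both of the second type. -/
lemma adj {KK : Set X} {x x' y y' : X} {b c : Bool} {I J : Prop}
    (hn : ¬ cc (x, b) (y, c)) (hI : I → x' = x ∧ x ∉ KK) (hI' : ¬ I → x' ∈ KK)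
    (hJ : J → y' = y ∧ y ∉ KK) (hJ' : ¬ J → y' ∈ KK) (h : cc (x', b) (y', c)) : ¬ I ∧ ¬ J := by
  obtain ⟨h1, h2⟩ := h
  simp only at h1 h2
  by_cases hi : I
  · obtain ⟨h3, h4⟩ := hI hi
    by_cases hj : J
    · obtain ⟨h5, h6⟩ := hJ hj
      exfalso
      apply hn
      refine ⟨?_, h2⟩
      simp only
      rw [← h3, ← h5, h1]
    · exfalso
      apply h4
      rw [← h3, h1]
      exact hJ' hj
  · by_cases hj : J
    · obtain ⟨h5, h6⟩ := hJ hj
      exfalso
      apply h6
      rw [← h5, ← h1]
      exact hI' hi
    · exact ⟨hi, hj⟩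

open Classical in
lemma comb {n : ℕ} (hn : n ≤ 4) (p : Fin n → Bool) (f f' : Fin n → X) (I : Fin n → Prop)
    (KK : Set X) (hred : FreeGroup.IsReduced (List.ofFn fun j => (f j, p j)))
    (h1 : ∀ j, I j → f' j = f j ∧ f j ∉ KK) (h2 : ∀ j, ¬ I j → f' j ∈ KK) :
    (∀ j, I j → f j ∈ (FreeGroup.reduce (List.ofFn fun j => (f' j, p j))).map Prod.fst) ∨
    (∃ h : n = 4, p (Fin.cast h.symm 3) = (!(p (Fin.cast h.symm 0))) ∧
      p (Fin.cast h.symm 2) = (!(p (Fin.cast h.symm 1))) ∧
      f (Fin.cast h.symm 3) = f (Fin.cast h.symm 0) ∧ I (Fin.cast h.symm 0) ∧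
      ¬ I (Fin.cast h.symm 1) ∧ ¬ I (Fin.cast h.symm 2) ∧
      f' (Fin.cast h.symm 3) = f' (Fin.cast h.symm 0) ∧
      f' (Fin.cast h.symm 2) = f' (Fin.cast h.symm 1)) := by
  interval_cases n
  · left
    intro j; exact j.elim0
  · left
    intro j hj
    have e : (List.ofFn fun j => (f' j, p j)) = [(f' 0, p 0)] := by simp [List.ofFn_succ]
    rw [e, FreeGroup.reduce_singleton]
    fin_cases j
    simp only [Fin.zero_eta, List.map_cons, List.map_nil, List.mem_singleton]
    exact (h1 0 hj).1.symm
  · left
    have e : (List.ofFn fun j => (f' j, p j)) = [(f' 0, p 0), (f' 1, p 1)] := by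
      simp [List.ofFn_succ]
    have e' : (List.ofFn fun j => (f j, p j)) = [(f 0, p 0), (f 1, p 1)] := by
      simp [List.ofFn_succ]
    rw [e'] at hred
    rw [e, red2]
    have n1 := not_cc (FreeGroup.isReduced_cons_cons.1 hred).1
    have a1 := adj n1 (h1 0) (h2 0) (h1 1) (h2 1)
    intro j hj
    split_ifs with c1
    · fin_cases j
      · exact absurd hj (a1 c1).1
      · exact absurd hj (a1 c1).2
    · rw [← (h1 j hj).1]
      fin_cases j <;> simp
  · left
    have e : (List.ofFn fun j => (f' j, p j)) = [(f' 0, p 0), (f' 1, p 1), (f' 2, p 2)] := by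
      simp [List.ofFn_succ]
    have e' : (List.ofFn fun j => (f j, p j)) = [(f 0, p 0), (f 1, p 1), (f 2, p 2)] := by
      simp [List.ofFn_succ]
    rw [e'] at hred
    rw [e, red3]
    have r1 := FreeGroup.isReduced_cons_cons.1 hred
    have r2 := FreeGroup.isReduced_cons_cons.1 r1.2
    have a1 := adj (not_cc r1.1) (h1 0) (h2 0) (h1 1) (h2 1)
    have a2 := adj (not_cc r2.1) (h1 1) (h2 1) (h1 2) (h2 2)
    intro j hj
    split_ifs with c1 c2
    · rw [← (h1 j hj).1]
      fin_cases j
      · simp
      · exact absurd hj (a2 c1).1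
      · exact absurd hj (a2 c1).2
    · rw [← (h1 j hj).1]
      fin_cases j
      · exact absurd hj (a1 c2).1
      · exact absurd hj (a1 c2).2
      · simp
    · rw [← (h1 j hj).1]
      fin_cases j <;> simp
  · have e : (List.ofFn fun j => (f' j, p j)) =
        [(f' 0, p 0), (f' 1, p 1), (f' 2, p 2), (f' 3, p 3)] := by
      simp [List.ofFn_succ]
    have e' : (List.ofFn fun j => (f j, p j)) =
        [(f 0, p 0), (f 1, p 1), (f 2, p 2), (f 3, p 3)] := by
      simp [List.ofFn_succ]
    rw [e'] at hred
    rw [e, red4]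
    have r1 := FreeGroup.isReduced_cons_cons.1 hred
    have r2 := FreeGroup.isReduced_cons_cons.1 r1.2
    have r3 := FreeGroup.isReduced_cons_cons.1 r2.2
    have a1 := adj (not_cc r1.1) (h1 0) (h2 0) (h1 1) (h2 1)
    have a2 := adj (not_cc r2.1) (h1 1) (h2 1) (h1 2) (h2 2)
    have a3 := adj (not_cc r3.1) (h1 2) (h2 2) (h1 3) (h2 3)
    by_cases c3 : cc (f' 2, p 2) (f' 3, p 3)
    · left
      intro j hj
      rw [if_pos c3]
      split_ifs with c1
      · fin_cases j
        · exact absurd hj (a1 c1).1
        · exact absurd hj (a1 c1).2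
        · exact absurd hj (a3 c3).1
        · exact absurd hj (a3 c3).2
      · rw [← (h1 j hj).1]
        fin_cases j
        · simp
        · simp
        · exact absurd hj (a3 c3).1
        · exact absurd hj (a3 c3).2
    rw [if_neg c3]
    by_cases c2 : cc (f' 1, p 1) (f' 2, p 2)
    · rw [if_pos c2]
      by_cases c4 : cc (f' 0, p 0) (f' 3, p 3)
      · by_cases hI : I 0
        · right
          have hI3 : I 3 := by
            by_contra hn3
            have h5 := h2 3 hn3
            have h6 : f' 0 = f' 3 := c4.1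
            rw [← h6, (h1 0 hI).1] at h5
            exact (h1 0 hI).2 h5
          refine ⟨rfl, ?_, ?_, ?_, hI, (a2 c2).1, (a2 c2).2, ?_, ?_⟩
          · have h6 : p 0 = !p 3 := c4.2
            show p 3 = !p 0
            rw [h6, Bool.not_not]
          · have h6 : p 1 = !p 2 := c2.2
            show p 2 = !p 1
            rw [h6, Bool.not_not]
          · show f 3 = f 0
            have h6 : f' 0 = f' 3 := c4.1
            rw [← (h1 0 hI).1, ← (h1 3 hI3).1, h6]
          · exact (c4.1 : f' 0 = f' 3).symm
          · exact (c2.1 : f' 1 = f' 2).symm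
        · left
          intro j hj
          exfalso
          fin_cases j
          · exact hI hj
          · exact (a2 c2).1 hj
          · exact (a2 c2).2 hj
          · have h6 : f' 0 = f' 3 := c4.1
            have h7 := h1 3 hj
            have h8 := h2 0 hI
            rw [h6, h7.1] at h8
            exact h7.2 h8
      · left
        intro j hj
        rw [if_neg c4, ← (h1 j hj).1]
        fin_cases j
        · simp
        · exact absurd hj (a2 c2).1
        · exact absurd hj (a2 c2).2
        · simp
    · left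
      intro j hj
      rw [if_neg c2]
      split_ifs with c1
      · rw [← (h1 j hj).1]
        fin_cases j
        · exact absurd hj (a1 c1).1
        · exact absurd hj (a1 c1).2
        · simp
        · simp
      · rw [← (h1 j hj).1]
        fin_cases j <;> simp

end Comb

end Pool.Agent.J4H93.Yam
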