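import Mathlib
import Pool.Agent.J4H93.Yam5

set_option autoImplicit false

open Topology Filter Set MeasureTheory

namespace Pool.Agent.J4H93.Yam

attribute [local instance] FT

section Main

variable {X : Type*} [MetricSpace X]

/-- The evaluation of a word of fixed sign pattern. -/
def Ph {n : ℕ} (p : Fin n → Bool) (f : Fin n → X) : FreeGroup X :=
  FreeGroup.mk (List.ofFn fun j => (f j, p j))

lemma continuous_Ph {n : ℕ} (p : Fin n → Bool) : Continuous (Ph (X := X) p) := by
  induction n with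
  | zero =>
    have : (Ph (X := X) p) = fun _ => 1 := by
      funext f
      simp only [Ph, List.ofFn_zero]
      exact FreeGroup.one_eq_mk.symm
    rw [this]
    exact continuous_const
  | succ n ih =>
    have : (Ph (X := X) p) = fun f => FreeGroup.mk [(f 0, p 0)] *
        Ph (fun j => p (Fin.succ j)) (fun j => f (Fin.succ j)) := by
      funext f
      simp only [Ph]
      rw [FreeGroup.mul_mk, List.ofFn_succ]
      rfl
    rw [this]
    refine ((continuous_single (p 0)).comp (continuous_apply 0)).mul ((ih _).comp ?_)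
    exact continuous_pi (fun j => continuous_apply _)

/-- The set of letters. -/
def Ap {n : ℕ} (A : Set (FreeGroup X)) (p : Fin n → Bool) : Set (Fin n → X) :=
  {f | Ph p f ∈ A ∧ FreeGroup.IsReduced (List.ofFn fun j => (f j, p j))}

/-- First case: all the letters converge. -/
lemma case1 (A : Set (FreeGroup X)) (g : FreeGroup X) {n : ℕ} (p : Fin n → Bool)
    (U : Ultrafilter (Fin n → X)) (hA : Ap A p ∈ U) (lim : Fin n → X)
    (hlim : Tendsto (fun f : Fin n → X => f) U (𝓝 lim)) (hg : Ph p lim = g) :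
    ∃ a : ℕ → FreeGroup X, (∀ n, a n ∈ A) ∧ Tendsto a atTop (𝓝 g) := by
  have h1 : lim ∈ closure (Ap A p) := mem_closure_iff_ultrafilter.2 ⟨U, hA, hlim⟩
  obtain ⟨x, hx, hx'⟩ := mem_closure_iff_seq_limit.1 h1
  refine ⟨fun k => Ph p (x k), fun k => (hx k).1, ?_⟩
  rw [← hg]
  exact ((continuous_Ph p).tendsto lim).comp hx'

/-- Second case: nested words. -/
lemma case2 (hK : IsCompact (K X)) (A : Set (FreeGroup X)) (b c : Bool)
    {ι : Type*} (U : Ultrafilter ι) (x u v : ι → X) {r : ℝ} (hr : 0 < r)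
    (hA : ∀ᶠ i in (U : Filter ι),
      FreeGroup.mk [(x i, b), (u i, c), (v i, !c), (x i, !b)] ∈ A)
    (hU : Tendsto (fun i => (FreeGroup.mk [(x i, b), (u i, c), (v i, !c), (x i, !b)] :
      FreeGroup X)) U (𝓝 1))
    (hx : ∀ᶠ i in (U : Filter ι), r ≤ ht (x i))
    (hu : ∀ᶠ i in (U : Filter ι), ht (u i) < r)
    (hv : ∀ᶠ i in (U : Filter ι), ht (v i) < r) :
    ∃ a : ℕ → FreeGroup X, (∀ n, a n ∈ A) ∧ Tendsto a atTop (𝓝 1) := by
  by_contra hno
  have hq : ∀ x : X, ∃ q : ℝ, 0 < q ∧ ∀ u v : X,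
      FreeGroup.mk [(x, b), (u, c), (v, !c), (x, !b)] ∈ A → q ≤ rho u v := by
    intro x
    by_contra hc
    apply hno
    push Not at hc
    have h1 : ∀ k : ℕ, (0 : ℝ) < 1 / ((k : ℝ) + 1) := fun k => by positivity
    choose u v huv using fun k : ℕ => hc _ (h1 k)
    refine ⟨fun k => FreeGroup.mk [(x, b), (u k, c), (v k, !c), (x, !b)], fun k => (huv k).1, ?_⟩
    rw [tendsto_iff_ultrafilter]
    intro V hV
    have h2 : Tendsto (fun k => (FreeGroup.mk [(u k, c), (v k, !c)] : FreeGroup X)) V (𝓝 1) := by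
      apply pair_tendsto hK
      intro ε hε
      have h3 : ∀ᶠ k : ℕ in atTop, (1 : ℝ) / ((k : ℝ) + 1) < ε :=
        (tendsto_one_div_add_atTop_nhds_zero_nat (𝕜 := ℝ)).eventually (gt_mem_nhds hε)
      filter_upwards [hV h3] with k hk
      exact (huv k).2.trans hk
    have h4 := (h2.const_mul (FreeGroup.mk [(x, b)])).mul_const ((FreeGroup.mk [(x, b)])⁻¹)
    rw [mul_one, mul_inv_cancel] at h4
    refine h4.congr ?_
    intro k
    rw [mk_nest]
  choose q hq0 hq1 using hq
  obtain ⟨W, hW, hW'⟩ := nested hr b c q hq0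
  obtain ⟨i, h1, h2, h3, h4, h5⟩ :=
    (hA.and ((hU.eventually hW).and (hx.and (hu.and hv)))).exists
  have h6 := hW' _ _ _ h3 h4 h5 h2
  have h7 := hq1 _ _ _ h1
  linarith

theorem main_seq (hK : IsCompact (K X)) (A : Set (FreeGroup X))
    (hA : ∀ a ∈ A, ∃ L : List (X × Bool), L.length ≤ 4 ∧ FreeGroup.mk L = a)
    (g : FreeGroup X) (hg : g ∈ closure A) :
    ∃ a : ℕ → FreeGroup X, (∀ n, a n ∈ A) ∧ Tendsto a atTop (𝓝 g) := by
  classical
  obtain ⟨U0, hAU, hU0⟩ := mem_closure_iff_ultrafilter.1 hg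
  -- fix the pattern
  have hpat : ∀ᶠ a in (U0 : Filter (FreeGroup X)), ∃ P : (Σ n : Fin 5, (Fin n.1 → Bool)),
      a ∈ Ph P.2 '' Ap A P.2 := by
    filter_upwards [hAU] with a ha
    obtain ⟨L, hL, hL'⟩ := hA a ha
    have hlen : a.toWord.length < 5 := by
      have h1 : a.norm ≤ L.length := by
        rw [← hL']
        exact FreeGroup.norm_mk_le
      have h2 : a.toWord.length = a.norm := rfl
      omega
    have hof : (List.ofFn fun j : Fin a.toWord.length =>
        ((a.toWord.get j).1, (a.toWord.get j).2)) = a.toWord := by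
      simp
    have hPh : Ph (fun j : Fin a.toWord.length => (a.toWord.get j).2)
        (fun j : Fin a.toWord.length => (a.toWord.get j).1) = a := by
      unfold Ph
      rw [hof, FreeGroup.mk_toWord]
    refine ⟨⟨⟨a.toWord.length, hlen⟩, fun j => (a.toWord.get j).2⟩,
      fun j => (a.toWord.get j).1, ⟨?_, ?_⟩, hPh⟩
    · show Ph (fun j : Fin a.toWord.length => (a.toWord.get j).2)
        (fun j : Fin a.toWord.length => (a.toWord.get j).1) ∈ A
      rw [hPh]; exact ha
    · show FreeGroup.IsReduced (List.ofFn fun j : Fin a.toWord.length =>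
        ((a.toWord.get j).1, (a.toWord.get j).2))
      rw [hof]
      exact FreeGroup.isReduced_toWord
  rw [Ultrafilter.eventually_exists_iff] at hpat
  obtain ⟨⟨⟨n, hn⟩, p⟩, hP⟩ := hpat
  have hn4 : n ≤ 4 := by omega
  change Fin n → Bool at p
  change ∀ᶠ a in (U0 : Filter (FreeGroup X)), a ∈ Ph p '' Ap A p at hP
  have hP' : Ph p '' Ap A p ∈ U0 := hP
  set U : Ultrafilter (Fin n → X) := Ultrafilter.ofComapInfPrincipal hP' with hUdef
  have hUA : Ap A p ∈ U := Ultrafilter.ofComapInfPrincipal_mem hP'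
  have hUm : U.map (Ph p) = U0 := Ultrafilter.ofComapInfPrincipal_eq_of_map hP'
  have hUt : Tendsto (Ph p) U (𝓝 g) := by
    have h1 : Filter.map (Ph p) (U : Filter (Fin n → X)) = (U0 : Filter (FreeGroup X)) := by
      rw [← hUm]; rfl
    show Filter.map (Ph p) U ≤ 𝓝 g
    rw [h1]; exact hU0
  -- types
  let I : Fin n → Prop := fun j => ∃ r : ℝ, 0 < r ∧ ∀ᶠ f in (U : Filter (Fin n → X)), r ≤ ht (f j)
  have hII : ∀ j, ¬ I j → ∀ r : ℝ, 0 < r → ∀ᶠ f in (U : Filter (Fin n → X)), ht (f j) < r := by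
    intro j hj r hr
    have h1 : ¬ ∀ᶠ f in (U : Filter (Fin n → X)), r ≤ ht (f j) := fun h => hj ⟨r, hr, h⟩
    rw [← Ultrafilter.eventually_not] at h1
    filter_upwards [h1] with f hf
    exact not_le.1 hf
  have hy : ∀ j, ∃ y : X, ¬ I j → (y ∈ K X ∧ Tendsto (fun f : Fin n → X => f j) U (𝓝 y)) := by
    intro j
    by_cases hj : I j
    · obtain ⟨f, -⟩ := U.nonempty_of_mem hUA
      exact ⟨f j, fun h => absurd hj h⟩
    · obtain ⟨y, hy1, hy2⟩ := exists_lim hK U (fun f : Fin n → X => f j) (hII j hj)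
      exact ⟨y, fun _ => ⟨hy1, hy2⟩⟩
  choose y hy using hy
  let f' : (Fin n → X) → Fin n → X := fun f j => if I j then f j else y j
  have hkey : ∀ᶠ f in (U : Filter (Fin n → X)), Ph p (f' f) = g := by
    refine key U hK p (fun f j => f j) f' y g ?_ hUt
    intro j
    by_cases hj : I j
    · left
      obtain ⟨r, hr, h⟩ := hj
      refine ⟨r, hr, ?_⟩
      filter_upwards [h] with f hf
      refine ⟨hf, ?_⟩
      simp only [f']
      rw [if_pos ⟨r, hr, h⟩]
    · right
      refine ⟨(hy j hj).1, Eventually.of_forall (fun f => ?_), (hy j hj).2⟩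
      simp only [f']
      rw [if_neg hj]
  -- the combinatorial alternative
  have hInK : ∀ᶠ f in (U : Filter (Fin n → X)), ∀ j, I j → f j ∉ K X := by
    rw [eventually_all]
    intro j
    by_cases hj : I j
    · obtain ⟨r, hr, h⟩ := hj
      filter_upwards [h] with f hf _ hK'
      rw [ht_mem hK'] at hf
      linarith
    · exact Eventually.of_forall (fun f h => absurd h hj)
  have halt : ∀ᶠ f in (U : Filter (Fin n → X)),
      (∀ j, I j → f j ∈ g.toWord.map Prod.fst) ∨
      (∃ h : n = 4, p (Fin.cast h.symm 3) = (!(p (Fin.cast h.symm 0))) ∧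
        p (Fin.cast h.symm 2) = (!(p (Fin.cast h.symm 1))) ∧
        f (Fin.cast h.symm 3) = f (Fin.cast h.symm 0) ∧ I (Fin.cast h.symm 0) ∧
        ¬ I (Fin.cast h.symm 1) ∧ ¬ I (Fin.cast h.symm 2) ∧
        f' f (Fin.cast h.symm 3) = f' f (Fin.cast h.symm 0) ∧
        f' f (Fin.cast h.symm 2) = f' f (Fin.cast h.symm 1)) := by
    filter_upwards [hkey, hInK, hUA] with f h1 h2 h3
    have h4 := comb hn4 p f (f' f) I (K X) h3.2 (fun j hj => ⟨by simp only [f']; rw [if_pos hj],
      h2 j hj⟩) (fun j hj => by simp only [f']; rw [if_neg hj]; exact (hy j hj).1)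
    rw [← h1]
    unfold Ph
    rw [FreeGroup.toWord_mk]
    exact h4
  rcases Ultrafilter.eventually_or.1 halt with h1 | h1
  · -- all letters converge
    have hc : ∀ j, ∃ c : X, I j → ∀ᶠ f in (U : Filter (Fin n → X)), f j = c := by
      intro j
      by_cases hj : I j
      · have h2 : ∀ᶠ f in (U : Filter (Fin n → X)), ∃ c ∈ {c | c ∈ g.toWord.map Prod.fst},
            f j = c := by
          filter_upwards [h1] with f hf
          exact ⟨f j, hf j hj, rfl⟩
        rw [Ultrafilter.eventually_exists_mem_iff (List.finite_toSet _)] at h2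
        obtain ⟨c, -, hc⟩ := h2
        exact ⟨c, fun _ => hc⟩
      · exact ⟨y j, fun h => absurd h hj⟩
    choose c hc using hc
    let lim : Fin n → X := fun j => if I j then c j else y j
    have hlim : Tendsto (fun f : Fin n → X => f) U (𝓝 lim) := by
      rw [tendsto_pi_nhds]
      intro j
      by_cases hj : I j
      · simp only [lim]
        rw [if_pos hj]
        refine Tendsto.congr' ?_ tendsto_const_nhds
        filter_upwards [hc j hj] with f hf
        exact hf.symm
      · simp only [lim]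
        rw [if_neg hj]
        exact (hy j hj).2
    have hlim' : Ph p lim = g := by
      have h2 : ∀ᶠ f in (U : Filter (Fin n → X)), ∀ j, f' f j = lim j := by
        rw [eventually_all]
        intro j
        by_cases hj : I j
        · filter_upwards [hc j hj] with f hf
          simp only [f', lim]
          rw [if_pos hj, if_pos hj]
          exact hf
        · refine Eventually.of_forall (fun f => ?_)
          simp only [f', lim]
          rw [if_neg hj, if_neg hj]
      obtain ⟨f, h3, h4⟩ := (hkey.and h2).exists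
      have h5 : f' f = lim := funext h4
      rw [← h5]; exact h3
    exact case1 A g p U hUA lim hlim hlim'
  · -- nested words
    obtain ⟨f0, h2, h3⟩ := (hkey.and h1).exists
    obtain ⟨hn, -⟩ := id h3
    subst hn
    simp only [Fin.cast_eq_self] at h3 h1
    obtain ⟨-, hp3, hp2, -, hI0, hI1, hI2, hf3, hf2⟩ := h3
    have hform : ∀ f : Fin 4 → X, f 3 = f 0 →
        Ph p f = FreeGroup.mk [(f 0, p 0), (f 1, p 1), (f 2, !(p 1)), (f 0, !(p 0))] := by
      intro f hf
      unfold Ph
      congr 1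
      rw [← hp3, ← hp2]
      conv_rhs => rw [show (f 0, p 3) = (f 3, p 3) by rw [hf]]
      simp [List.ofFn_succ]
    have hg1 : g = 1 := by
      rw [← h2, hform _ hf3, mk_nest, hf2, mk_pair, mul_inv_cancel, mul_one, mul_inv_cancel]
    rw [hg1]
    obtain ⟨r, hr, hI0'⟩ := hI0
    have hev : ∀ᶠ f in (U : Filter (Fin 4 → X)), Ph p f =
        FreeGroup.mk [(f 0, p 0), (f 1, p 1), (f 2, !(p 1)), (f 0, !(p 0))] := by
      filter_upwards [h1] with f hf
      obtain ⟨-, -, -, h5, -⟩ := hf
      exact hform f h5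
    refine case2 hK A (p 0) (p 1) U (fun f => f 0) (fun f => f 1) (fun f => f 2) hr ?_ ?_ hI0'
      (hII 1 hI1 r hr) (hII 2 hI2 r hr)
    · filter_upwards [hev, hUA] with f h4 h5
      rw [← h4]
      exact h5.1
    · rw [hg1] at hUt
      exact hUt.congr' hev

end Main

end Pool.Agent.J4H93.Yam
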